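import Pool.Agent.X51.HS.Exch

/-!
Rank functions of M-convex sets; the homological shifts of a polymatroid are polymatroids.
-/

set_option autoImplicit false

namespace Pool.Agent.X51.HS

open Finset

variable {n : ℕ}

lemma sum_upd (w : Fin n → ℤ) (x y : Fin n) (S : Finset (Fin n)) :
    ∑ z ∈ S, (w + E x - E y) z = ∑ z ∈ S, w z + (if x ∈ S then 1 else 0) -
      (if y ∈ S then 1 else 0) := by
  simp only [Pi.add_apply, Pi.sub_apply]
  rw [Finset.sum_sub_distrib, Finset.sum_add_distrib, sum_mem_E, sum_mem_E]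

/-- elements are nonnegative vectors -/
def NN (B : Set (Fin n → ℤ)) : Prop := ∀ u ∈ B, ∀ x, 0 ≤ u x

/-- exchange property of a sum of two sets -/
lemma exch_add {B C : Set (Fin n → ℤ)} (hB : Exch B) (hC : Exch C) :
    ∀ N : ℕ, ∀ b ∈ B, ∀ c ∈ C, ∀ b' ∈ B, ∀ c' ∈ C, ds b b' + ds c c' = N →
      ∀ p, (b' + c') p < (b + c) p →
        ∃ q, (b + c) q < (b' + c') q ∧ ∃ b1 ∈ B, ∃ c1 ∈ C, b1 + c1 = b + c - E p + E q := by
  intro N
  induction N using Nat.strong_induction_on with
  | _ N ih =>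
    intro b hb c hc b' hb' c' hc' hN p hp
    -- one of the two components
    have main : ∀ b1 ∈ B, ∀ c1 ∈ C, ∀ q, b1 + c1 = b + c - E p + E q → p ≠ q →
        ds b1 b' + ds c1 c' < N → ∃ q, (b + c) q < (b' + c') q ∧ ∃ b1 ∈ B, ∃ c1 ∈ C,
          b1 + c1 = b + c - E p + E q := by
      intro b1 hb1 c1 hc1 q hs hpq hlt
      by_cases hq : (b + c) q < (b' + c') q
      · exact ⟨q, hq, b1, hb1, c1, hc1, hs⟩
      · have hq1 : (b' + c') q < (b1 + c1) q := by
          rw [hs, Pi.add_apply (b + c - E p), Pi.sub_apply, E_self, E_ne hpq.symm]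
          omega
        obtain ⟨l, hl, b2, hb2, c2, hc2, hs2⟩ := ih _ hlt b1 hb1 c1 hc1 b' hb' c' hc' rfl q hq1
        have hlq : l ≠ q := by
          rintro rfl
          omega
        rw [hs, Pi.add_apply (b + c - E p), Pi.sub_apply, E_ne hlq] at hl
        have hlp : l ≠ p := by
          rintro rfl
          rw [E_self] at hl
          omega
        rw [E_ne hlp] at hl
        refine ⟨l, by omega, b2, hb2, c2, hc2, ?_⟩
        rw [hs2, hs]
        abel
    rcases lt_or_ge (b' p) (b p) with h | h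
    · obtain ⟨q, hq, hm⟩ := hB b hb b' hb' p h
      refine main _ hm c hc q (by abel) (by rintro rfl; omega) ?_
      have := ds_lt h hq
      omega
    · have h' : c' p < c p := by
        simp only [Pi.add_apply] at hp
        omega
      obtain ⟨q, hq, hm⟩ := hC c hc c' hc' p h'
      refine main b hb _ hm q (by abel) (by rintro rfl; omega) ?_
      have := ds_lt h' hq
      omega

/-- sum of two sets -/
def AddS (B C : Set (Fin n → ℤ)) : Set (Fin n → ℤ) := {x | ∃ b ∈ B, ∃ c ∈ C, x = b + c}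

lemma AddS_exch {B C : Set (Fin n → ℤ)} (hB : Exch B) (hC : Exch C) : Exch (AddS B C) := by
  rintro _ ⟨b, hb, c, hc, rfl⟩ _ ⟨b', hb', c', hc', rfl⟩ p hp
  obtain ⟨q, hq, b1, hb1, c1, hc1, hs⟩ := exch_add hB hC _ b hb c hc b' hb' c' hc' rfl p hp
  exact ⟨q, hq, b1, hb1, c1, hc1, hs.symm⟩

/-- the uniform matroid -/
def Uni (X : Finset (Fin n)) (i : ℕ) : Set (Fin n → ℤ) :=
  {w | ∃ F : Finset (Fin n), Disjoint F X ∧ F.card = i ∧ w = ch F}

lemma Uni_exch (X : Finset (Fin n)) (i : ℕ) : Exch (Uni X i) := by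
  rintro _ ⟨F, hF, hFi, rfl⟩ _ ⟨G, hG, hGi, rfl⟩ p hp
  have hpF : p ∈ F := by
    by_contra h
    simp only [ch, if_neg h] at hp
    split_ifs at hp <;> omega
  have hpG : p ∉ G := by
    intro h
    simp only [ch, if_pos h, if_pos hpF] at hp
    omega
  obtain ⟨q, hqG, hqF⟩ : ∃ q ∈ G, q ∉ F := by
    by_contra hcon
    push Not at hcon
    have h1 : G ⊆ F := hcon
    have h2 := Finset.eq_of_subset_of_card_le h1 (by omega)
    exact hpG (h2 ▸ hpF)
  refine ⟨q, by simp [ch, hqG, hqF], insert q (F.erase p), ?_, ?_, (ch_insert_erase hpF hqF).symm⟩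
  · rw [Finset.disjoint_insert_left]
    exact ⟨Finset.disjoint_left.mp hG hqG, hF.mono_left (Finset.erase_subset _ _)⟩
  · rw [Finset.card_insert_of_notMem (fun h => hqF (Finset.mem_of_mem_erase h)),
      Finset.card_erase_of_mem hpF, hFi]
    have : 0 < F.card := Finset.card_pos.mpr ⟨p, hpF⟩
    omega

/-- the set reachable from `p` at `u` -/
lemma reach_closed {B : Set (Fin n → ℤ)} (hB : Exch B) {u : Fin n → ℤ} (p : Fin n) :
    ∀ x, (x = p ∨ u + E p - E x ∈ B) → ∀ y, ¬ (y = p ∨ u + E p - E y ∈ B) →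
      u + E x - E y ∉ B := by
  intro x hx y hy hm
  rw [not_or] at hy
  rcases hx with rfl | hx
  · exact hy.2 hm
  · by_cases hxp : x = p
    · subst hxp
      exact hy.2 hm
    · have hxy : x ≠ y := by
        rintro rfl
        exact hy.2 hx
      exact hy.2 (exch_trans hB (Ne.symm hxp) (Ne.symm hy.1) hxy hx hm)

/-- M-convex sets have no holes -/
lemma hole_free {B : Set (Fin n → ℤ)} (hB : Exch B) {d : ℤ} (hd : Deg B d) (hne : B.Nonempty)
    {x : Fin n → ℤ} (hx : ∑ z, x z = d)
    (hle : ∀ S : Finset (Fin n), ∃ v ∈ B, ∑ z ∈ S, x z ≤ ∑ z ∈ S, v z) : x ∈ B := by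
  classical
  obtain ⟨u, hu, hmin⟩ := WellFounded.has_min (measure (fun u => ds u x)).wf B hne
  by_cases hux : u = x
  · exact hux ▸ hu
  exfalso
  have hp : ∃ p, u p < x p := by
    by_contra hcon
    push Not at hcon
    apply hux
    funext z
    have h1 : ∀ z ∈ (Finset.univ : Finset (Fin n)), x z = u z := by
      rw [← Finset.sum_eq_sum_iff_of_le fun z _ => hcon z]
      rw [hx, hd u hu]
    exact (h1 z (Finset.mem_univ _)).symm
  obtain ⟨p, hp⟩ := hp
  let R : Finset (Fin n) := Finset.univ.filter fun y => y = p ∨ u + E p - E y ∈ B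
  have hR : ∀ y ∈ R, u y ≤ x y := by
    intro y hy
    by_contra hlt
    push Not at hlt
    simp only [R, Finset.mem_filter, Finset.mem_univ, true_and] at hy
    rcases hy with rfl | hy
    · omega
    · have h1 : u + E p - E y = u - E y + E p := by abel
      rw [h1] at hy
      exact hmin _ hy (ds_lt hlt hp)
  obtain ⟨v, hv, h1⟩ := hle R
  have h2 := closed_tight hB hd hu R (fun x hx y hy => reach_closed hB p x
    (by simpa [R] using hx) y (by simpa [R] using hy)) v hv
  have h3 : ∑ z ∈ R, u z < ∑ z ∈ R, x z :=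
    Finset.sum_lt_sum hR ⟨p, by simp [R], hp⟩
  omega

/-- an element which is maximal on two nested sets -/
lemma chain {B : Set (Fin n → ℤ)} (hB : Exch B) {d : ℤ} (hd : Deg B d) {S T : Finset (Fin n)}
    (hST : S ⊆ T) (rS rT : ℤ) (hrS : ∀ v ∈ B, ∑ z ∈ S, v z ≤ rS) (hrT : ∀ v ∈ B, ∑ z ∈ T, v z ≤ rT)
    (hT : ∃ v ∈ B, ∑ z ∈ T, v z = rT) :
    ∀ N : ℕ, ∀ u ∈ B, ∑ z ∈ S, u z = rS → (rT - ∑ z ∈ T, u z).toNat = N →
      ∃ u ∈ B, ∑ z ∈ S, u z = rS ∧ ∑ z ∈ T, u z = rT := by
  intro N
  induction N with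
  | zero =>
    intro u hu h1 h2
    have := hrT u hu
    exact ⟨u, hu, h1, by omega⟩
  | succ N ih =>
    intro u hu h1 h2
    obtain ⟨v, hv, hvT⟩ := hT
    have hex : ∃ x ∈ T, ∃ y, y ∉ T ∧ u + E x - E y ∈ B := by
      by_contra hcon
      push Not at hcon
      have := closed_tight hB hd hu T hcon v hv
      omega
    obtain ⟨x, hx, y, hy, hm⟩ := hex
    have hyS : y ∉ S := fun h => hy (hST h)
    have h3 := hrS _ hm
    have h4 := sum_upd u x y T
    rw [if_pos hx, if_neg hy] at h4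
    rw [sum_upd, if_neg hyS] at h3
    have hxS : x ∉ S := by
      intro h
      rw [if_pos h] at h3
      omega
    exact ih _ hm (by rw [sum_upd, if_neg hyS, if_neg hxS]; omega) (by omega)

/-- rank function -/
structure IsRk (B : Set (Fin n → ℤ)) (ρ : Finset (Fin n) → ℤ) : Prop where
  le : ∀ S, ∀ v ∈ B, ∑ z ∈ S, v z ≤ ρ S
  ex : ∀ S, ∃ v ∈ B, ∑ z ∈ S, v z = ρ S

lemma exists_rk {B : Set (Fin n → ℤ)} {d : ℤ} (hd : Deg B d) (hne : B.Nonempty) (hN : NN B) :
    ∃ ρ, IsRk B ρ := by
  classical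
  have h : ∀ S : Finset (Fin n), ∃ r : ℤ, (∀ v ∈ B, ∑ z ∈ S, v z ≤ r) ∧
      ∃ v ∈ B, ∑ z ∈ S, v z = r := by
    intro S
    obtain ⟨u, hu, hmin⟩ := WellFounded.has_min
      (measure (fun u : Fin n → ℤ => (d - ∑ z ∈ S, u z).toNat)).wf B hne
    refine ⟨∑ z ∈ S, u z, fun v hv => ?_, u, hu, rfl⟩
    by_contra hlt
    push Not at hlt
    have h1 : ∑ z ∈ S, v z ≤ d := by
      rw [← hd v hv]
      exact Finset.sum_le_sum_of_subset_of_nonneg (Finset.subset_univ S) fun z _ _ => hN v hv z
    refine hmin v hv ?_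
    show (d - ∑ z ∈ S, v z).toNat < (d - ∑ z ∈ S, u z).toNat
    omega
  choose ρ h1 h2 using h
  exact ⟨ρ, h1, h2⟩

lemma IsRk.submod {B : Set (Fin n → ℤ)} (hB : Exch B) {d : ℤ} (hd : Deg B d)
    {ρ : Finset (Fin n) → ℤ} (h : IsRk B ρ) (S T : Finset (Fin n)) :
    ρ (S ∪ T) + ρ (S ∩ T) ≤ ρ S + ρ T := by
  obtain ⟨u0, hu0, h0⟩ := h.ex (S ∩ T)
  obtain ⟨u, hu, h1, h2⟩ := chain hB hd
    (show S ∩ T ⊆ S ∪ T from Finset.inter_subset_left.trans Finset.subset_union_left) _ _
    (h.le _) (h.le _) (h.ex _) _ u0 hu0 h0 rfl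
  have h3 := Finset.sum_union_inter (f := u) (s₁ := S) (s₂ := T)
  have h4 := h.le S u hu
  have h5 := h.le T u hu
  omega

/-- the inequalities describing the good vectors -/
def Ineq (ρ : Finset (Fin n) → ℤ) (i : ℕ) (a : Fin n → ℤ) : Prop :=
  ∀ S : Finset (Fin n), S.Nonempty →
    ∑ z ∈ S, a z ≤ ρ S + min ((S.card : ℤ) - 1) (i : ℤ)

lemma good_ineq {B : Set (Fin n → ℤ)} {ρ : Finset (Fin n) → ℤ} (h : IsRk B ρ) {i : ℕ}
    {a : Fin n → ℤ} (ha : Good B i a) : Ineq ρ i a := by
  rintro S ⟨f, hf⟩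
  obtain ⟨F, hfF, hFi, hm⟩ := ha.2 f
  have h1 := h.le S _ hm
  simp only [Pi.sub_apply] at h1
  rw [Finset.sum_sub_distrib, sum_ch] at h1
  have h2 : (F ∩ S).card ≤ i := hFi ▸ Finset.card_le_card Finset.inter_subset_left
  have h3 : (F ∩ S).card < S.card :=
    Finset.card_lt_card ((Finset.ssubset_iff_of_subset Finset.inter_subset_right).mpr
      ⟨f, hf, fun h => hfF (Finset.mem_of_mem_inter_left h)⟩)
  have h4 : ((F ∩ S).card : ℤ) ≤ min ((S.card : ℤ) - 1) (i : ℤ) := le_min (by omega) (by omega)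
  omega

lemma good_sum {B : Set (Fin n → ℤ)} {d : ℤ} (hd : Deg B d) {i : ℕ} {a : Fin n → ℤ}
    (ha : Good B i a) : ∑ z, a z = d + i := by
  obtain ⟨F, hFi, hm⟩ := ha.1
  have h1 := hd _ hm
  simp only [Pi.sub_apply] at h1
  rw [Finset.sum_sub_distrib, sum_ch, Finset.inter_univ, hFi] at h1
  omega

lemma good_of_ineq {B : Set (Fin n → ℤ)} (hB : Exch B) {d : ℤ} (hd : Deg B d)
    {ρ : Finset (Fin n) → ℤ} (h : IsRk B ρ) {i : ℕ} {a : Fin n → ℤ} (hn : 0 < n)
    (hs : ∑ z, a z = d + i) (ha : Ineq ρ i a) : Good B i a := by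
  classical
  have key : ∀ f, ∃ F : Finset (Fin n), f ∉ F ∧ F.card = i ∧ a - ch F ∈ B := by
    intro f
    have hin : i ≤ n - 1 := by
      have h1 := ha Finset.univ ⟨f, Finset.mem_univ _⟩
      obtain ⟨v, hv, h2⟩ := h.ex Finset.univ
      rw [hs, ← h2, hd v hv, Finset.card_univ, Fintype.card_fin] at h1
      have := min_le_left ((n : ℤ) - 1) (i : ℤ)
      omega
    have hU : ∀ S : Finset (Fin n), ∃ F : Finset (Fin n), Disjoint F {f} ∧ F.card = i ∧
        min ((S.card : ℤ) - 1) (i : ℤ) ≤ ((F ∩ S).card : ℤ) := by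
      intro S
      by_cases hc : i ≤ (S.erase f).card
      · obtain ⟨F, hF, hFi⟩ := Finset.exists_subset_card_eq hc
        refine ⟨F, ?_, hFi, ?_⟩
        · rw [Finset.disjoint_singleton_right]
          exact fun h => Finset.notMem_erase f S (hF h)
        · rw [Finset.inter_eq_left.mpr (hF.trans (Finset.erase_subset _ _)), hFi]
          exact min_le_right _ _
      · push Not at hc
        obtain ⟨F, hF1, hF2, hFi⟩ := Finset.exists_subsuperset_card_eq
          (show S.erase f ⊆ Finset.univ.erase f from Finset.erase_subset_erase _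
            (Finset.subset_univ S)) hc.le (by
            rw [Finset.card_erase_of_mem (Finset.mem_univ _), Finset.card_univ,
              Fintype.card_fin]
            exact hin)
        refine ⟨F, ?_, hFi, ?_⟩
        · rw [Finset.disjoint_singleton_right]
          exact fun h => Finset.notMem_erase f _ (hF2 h)
        · have h1 : (S.erase f).card ≤ (F ∩ S).card := Finset.card_le_card
            (Finset.subset_inter hF1 (Finset.erase_subset _ _))
          have h2 : S.card - 1 ≤ (S.erase f).card := Finset.pred_card_le_card_erase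
          refine (min_le_left _ _).trans ?_
          omega
    have hD : Deg (AddS B (Uni {f} i)) (d + i) := by
      rintro _ ⟨b, hb, _, ⟨F, -, hF, rfl⟩, rfl⟩
      simp only [Pi.add_apply]
      rw [Finset.sum_add_distrib, hd b hb, sum_ch, Finset.inter_univ, hF]
    have hmem : a ∈ AddS B (Uni {f} i) := by
      refine hole_free (AddS_exch hB (Uni_exch {f} i)) hD ?_ hs fun S => ?_
      · obtain ⟨v, hv, -⟩ := h.ex ∅
        obtain ⟨F, h1, h2, -⟩ := hU ∅
        exact ⟨_, v, hv, ch F, ⟨F, h1, h2, rfl⟩, rfl⟩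
      · obtain ⟨v, hv, h1⟩ := h.ex S
        obtain ⟨F, h2, h3, h4⟩ := hU S
        refine ⟨_, ⟨v, hv, ch F, ⟨F, h2, h3, rfl⟩, rfl⟩, ?_⟩
        simp only [Pi.add_apply]
        rw [Finset.sum_add_distrib, sum_ch, h1]
        by_cases hSe : S.Nonempty
        · have := ha S hSe
          omega
        · rw [Finset.not_nonempty_iff_eq_empty] at hSe
          subst hSe
          simp only [Finset.sum_empty] at h1 ⊢
          rw [← h1]
          simp
    obtain ⟨b, hb, _, ⟨F, h1, h2, rfl⟩, h3⟩ := hmem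
    refine ⟨F, Finset.disjoint_singleton_right.mp h1, h2, ?_⟩
    rw [h3, add_sub_cancel_right]
    exact hb
  obtain ⟨F, -, h1, h2⟩ := key ⟨0, hn⟩
  exact ⟨⟨F, h1, h2⟩, key⟩

/-- **The homological shifts of a polymatroid are polymatroids.** -/
theorem good_exch {B : Set (Fin n → ℤ)} (hB : Exch B) {d : ℤ} (hd : Deg B d) (hN : NN B)
    (i : ℕ) : Exch {a | Good B i a} := by
  classical
  intro a ha a' ha' p hp
  have hn : 0 < n := Fin.pos p
  have hne : B.Nonempty := by
    obtain ⟨⟨F, -, hm⟩, -⟩ := ha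
    exact ⟨_, hm⟩
  obtain ⟨ρ, hρ⟩ := exists_rk hd hne hN
  have hI : Ineq ρ i a := good_ineq hρ ha
  have hI' : Ineq ρ i a' := good_ineq hρ ha'
  have hs := good_sum hd ha
  have hs' := good_sum hd ha'
  by_contra hcon
  push Not at hcon
  -- tight sets
  let tight : Finset (Fin n) → Prop := fun T => T.Nonempty ∧
    ∑ z ∈ T, a z = ρ T + min ((T.card : ℤ) - 1) (i : ℤ)
  have htight : ∀ q, a q < a' q → ∃ T, q ∈ T ∧ p ∉ T ∧ tight T := by
    intro q hq
    have h1 := hcon q hq
    by_contra hno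
    push Not at hno
    apply h1
    have h2 : a - E p + E q = a + E q - E p := by abel
    refine good_of_ineq hB hd hρ hn ?_ fun S hS => ?_
    · rw [h2]
      have h3 := sum_upd a q p Finset.univ
      rw [if_pos (Finset.mem_univ _), if_pos (Finset.mem_univ _)] at h3
      omega
    · rw [h2, sum_upd]
      have h3 := hI S hS
      by_cases hqS : q ∈ S
      · by_cases hpS : p ∈ S
        · rw [if_pos hqS, if_pos hpS]
          omega
        · have h4 : ¬ ∑ z ∈ S, a z = ρ S + min ((S.card : ℤ) - 1) (i : ℤ) := fun h =>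
            hno S hqS hpS ⟨hS, h⟩
          rw [if_pos hqS, if_neg hpS]
          omega
      · rw [if_neg hqS]
        split_ifs <;> omega
  -- union of intersecting tight sets
  have hunion : ∀ S T : Finset (Fin n), tight S → tight T → (S ∩ T).Nonempty → tight (S ∪ T) := by
    rintro S T ⟨hS1, hS2⟩ ⟨hT1, hT2⟩ hne'
    have h1 := hρ.submod hB hd S T
    have h2 := hI (S ∪ T) (hS1.mono Finset.subset_union_left)
    have h3 := hI (S ∩ T) hne'
    have h4 := Finset.sum_union_inter (f := a) (s₁ := S) (s₂ := T)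
    have h5 := Finset.card_union_add_card_inter S T
    have h6 : (S ∩ T).card ≤ S.card := Finset.card_le_card Finset.inter_subset_left
    have h7 : (S ∩ T).card ≤ T.card := Finset.card_le_card Finset.inter_subset_right
    have h8 : 0 < (S ∩ T).card := Finset.card_pos.mpr hne'
    refine ⟨hS1.mono Finset.subset_union_left, ?_⟩
    omega
  -- the largest tight set containing `q` and avoiding `p`
  let R : Finset (Fin n) := Finset.univ.filter fun q => ∃ T, q ∈ T ∧ p ∉ T ∧ tight T
  have hM : ∀ q, ∃ M : Finset (Fin n), q ∈ R → q ∈ M ∧ p ∉ M ∧ tight M ∧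
      ∀ T, q ∈ T → p ∉ T → tight T → T ⊆ M := by
    intro q
    by_cases hq : q ∈ R
    · simp only [R, Finset.mem_filter, Finset.mem_univ, true_and] at hq
      obtain ⟨T0, hT0⟩ := hq
      obtain ⟨M, hM1, hM2⟩ := Finset.exists_max_image
        (Finset.univ.filter fun T : Finset (Fin n) => q ∈ T ∧ p ∉ T ∧ tight T) Finset.card
        ⟨T0, by simp only [Finset.mem_filter, Finset.mem_univ, true_and]; exact hT0⟩
      simp only [Finset.mem_filter, Finset.mem_univ, true_and] at hM1 hM2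
      refine ⟨M, fun _ => ⟨hM1.1, hM1.2.1, hM1.2.2, fun T h1 h2 h3 => ?_⟩⟩
      have h4 := hM2 (M ∪ T) ⟨Finset.mem_union_left _ hM1.1, by
        rw [Finset.mem_union, not_or]; exact ⟨hM1.2.1, h2⟩,
        hunion M T hM1.2.2 h3 ⟨q, Finset.mem_inter.mpr ⟨hM1.1, h1⟩⟩⟩
      have h5 := Finset.eq_of_subset_of_card_le (Finset.subset_union_left (s₁ := M) (s₂ := T)) h4
      rw [h5]
      exact Finset.subset_union_right
    · exact ⟨∅, fun h => absurd h hq⟩
  choose M hM using hM
  have hMR : ∀ q ∈ R, M q ⊆ R := by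
    intro q hq x hx
    obtain ⟨h1, h2, h3, -⟩ := hM q hq
    simp only [R, Finset.mem_filter, Finset.mem_univ, true_and]
    exact ⟨M q, hx, h2, h3⟩
  have hMeq : ∀ q ∈ R, ∀ x ∈ M q, M x = M q := by
    intro q hq x hx
    have hxR := hMR q hq hx
    obtain ⟨h1, h2, h3, h4⟩ := hM q hq
    obtain ⟨g1, g2, g3, g4⟩ := hM x hxR
    have h5 : M q ⊆ M x := g4 _ hx h2 h3
    exact Finset.Subset.antisymm (h4 _ (h5 h1) g2 g3) h5
  -- the sum over R
  have hsumR : 0 ≤ ∑ x ∈ R, (a x - a' x) := by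
    rw [← Finset.sum_fiberwise_of_maps_to (t := R.image M) (g := M)
      (fun x hx => Finset.mem_image_of_mem M hx)]
    refine Finset.sum_nonneg fun T hT => ?_
    obtain ⟨q, hq, rfl⟩ := Finset.mem_image.mp hT
    have h1 : (R.filter fun x => M x = M q) = M q := by
      ext x
      rw [Finset.mem_filter]
      constructor
      · rintro ⟨hx, h⟩
        rw [← h]
        exact (hM x hx).1
      · intro hx
        exact ⟨hMR q hq hx, hMeq q hq x hx⟩
    rw [h1, Finset.sum_sub_distrib]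
    obtain ⟨-, -, ⟨h3, h4⟩, -⟩ := hM q hq
    have h5 := hI' (M q) h3
    omega
  have hout : 0 < ∑ x ∈ Rᶜ, (a x - a' x) := by
    refine Finset.sum_pos' (fun x hx => ?_) ⟨p, ?_, by omega⟩
    · by_contra hlt
      push Not at hlt
      obtain ⟨T, hT⟩ := htight x (by omega)
      rw [Finset.mem_compl] at hx
      exact hx (by simp only [R, Finset.mem_filter, Finset.mem_univ, true_and]; exact ⟨T, hT⟩)
    · rw [Finset.mem_compl]
      intro h
      simp only [R, Finset.mem_filter, Finset.mem_univ, true_and] at h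
      obtain ⟨T, h1, h2, -⟩ := h
      exact h2 h1
  have htot := Finset.sum_add_sum_compl R (fun x => a x - a' x)
  rw [Finset.sum_sub_distrib (s := Finset.univ), hs, hs'] at htot
  omega

/-- the colon lemma -/
theorem colon {B C : Set (Fin n → ℤ)} (hne : B.Nonempty) (hN : NN B) (hC : Exch C) {e : ℤ}
    (hCd : Deg C e) (c : Fin n → ℤ)
    (h : ∀ b ∈ B, ∃ b' ∈ B, ∃ c' ∈ C, ∀ x, (b' + c') x ≤ (c + b) x) :
    ∃ c' ∈ C, ∀ x, c' x ≤ c x := by
  classical
  have hCne : C.Nonempty := by
    obtain ⟨b, hb⟩ := hne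
    obtain ⟨-, -, c', hc', -⟩ := h b hb
    exact ⟨c', hc'⟩
  obtain ⟨u, hu, hmin⟩ := WellFounded.has_min
    (measure (fun u : Fin n → ℤ => ∑ x, (u x - c x).toNat)).wf C hCne
  refine ⟨u, hu, ?_⟩
  by_contra hcon
  push Not at hcon
  obtain ⟨p, hp⟩ := hcon
  let R : Finset (Fin n) := Finset.univ.filter fun y => y = p ∨ u - E p + E y ∈ C
  have hR : ∀ y ∈ R, c y ≤ u y := by
    intro y hy
    by_contra hlt
    push Not at hlt
    simp only [R, Finset.mem_filter, Finset.mem_univ, true_and] at hy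
    rcases hy with rfl | hy
    · omega
    · refine hmin _ hy ?_
      show ∑ x, ((u - E p + E y) x - c x).toNat < ∑ x, (u x - c x).toNat
      have hyp : p ≠ y := by
        rintro rfl
        omega
      refine Finset.sum_lt_sum (fun x _ => ?_) ⟨p, Finset.mem_univ _, ?_⟩
      · simp only [Pi.add_apply, Pi.sub_apply]
        by_cases h1 : x = p
        · subst h1
          rw [E_self, E_ne hyp]
          omega
        · by_cases h2 : x = y
          · subst h2
            rw [E_self, E_ne h1]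
            omega
          · rw [E_ne h1, E_ne h2]
            omega
      · simp only [Pi.add_apply, Pi.sub_apply]
        rw [E_self, E_ne hyp]
        omega
  have hclosed : ∀ x ∈ Rᶜ, ∀ y, y ∉ Rᶜ → u + E x - E y ∉ C := by
    intro x hx y hy hm
    simp only [R, Finset.mem_compl, Finset.mem_filter, Finset.mem_univ, true_and, not_not] at hx hy
    rw [not_or] at hx
    rcases hy with rfl | hy
    · apply hx.2
      have : u - E y + E x = u + E x - E y := by abel
      rw [this]
      exact hm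
    · by_cases hyp : y = p
      · subst hyp
        apply hx.2
        have : u - E y + E x = u + E x - E y := by abel
        rw [this]
        exact hm
      · by_cases hxy : x = y
        · subst hxy
          exact hx.2 hy
        · apply hx.2
          have h1 : u - E p + E y = u + E y - E p := by abel
          rw [h1] at hy
          have h2 := exch_trans hC hxy hx.1 hyp hm hy
          have : u - E p + E x = u + E x - E p := by abel
          rw [this]
          exact h2
  have hlow : ∀ v ∈ C, ∑ x ∈ R, u x ≤ ∑ x ∈ R, v x := by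
    intro v hv
    have h1 := closed_tight hC hCd hu Rᶜ hclosed v hv
    have h2 := hCd u hu
    have h3 := hCd v hv
    rw [← Finset.sum_add_sum_compl R] at h2 h3
    omega
  have hlt : ∑ x ∈ R, c x < ∑ x ∈ R, u x := Finset.sum_lt_sum hR ⟨p, by simp [R], hp⟩
  obtain ⟨b, hb, hbmin⟩ := WellFounded.has_min
    (measure (fun b : Fin n → ℤ => (∑ x ∈ R, b x).toNat)).wf B hne
  obtain ⟨b', hb', c', hc', h1⟩ := h b hb
  have h2 := Finset.sum_le_sum fun x (_ : x ∈ R) => h1 x
  simp only [Pi.add_apply] at h2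
  rw [Finset.sum_add_distrib, Finset.sum_add_distrib] at h2
  have h3 := hlow c' hc'
  have h4 : ∑ x ∈ R, b x ≤ ∑ x ∈ R, b' x := by
    have h5 : ¬ (∑ x ∈ R, b' x).toNat < (∑ x ∈ R, b x).toNat := hbmin b' hb'
    have h6 : 0 ≤ ∑ x ∈ R, b' x := Finset.sum_nonneg fun x _ => hN b' hb' x
    omega
  omega

end Pool.Agent.X51.HS
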