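import Pool.Agent.X51.HS.Tor
import Pool.Agent.X51.HS.Rank

/-!
Associated primes of the homological shift ideals of powers of polymatroidal ideals.
-/

set_option autoImplicit false

namespace Pool.Agent.X51.HS

open Finset Pool.Agent.H677R3.EdgeReg

variable {n : ℕ} {k : Type*} [Field k]

lemma ass_iff {R : Type*} [CommRing R] [IsNoetherianRing R] (J P : Ideal R) :
    P ∈ associatedPrimes R (R ⧸ J) ↔ P.IsPrime ∧ ∃ f : R, ∀ r, r ∈ P ↔ r * f ∈ J := by
  rw [AssociatedPrimes.mem_iff, isAssociatedPrime_iff]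
  refine and_congr_right fun _ => ?_
  constructor
  · rintro ⟨x, rfl⟩
    obtain ⟨f, rfl⟩ := Ideal.Quotient.mk_surjective x
    refine ⟨f, fun r => ?_⟩
    rw [Submodule.mem_colon_singleton, Submodule.mem_bot, ← Ideal.Quotient.eq_zero_iff_mem]
    rfl
  · rintro ⟨f, hf⟩
    refine ⟨Ideal.Quotient.mk J f, ?_⟩
    ext r
    rw [hf, Submodule.mem_colon_singleton, Submodule.mem_bot, ← Ideal.Quotient.eq_zero_iff_mem]
    rfl

lemma ass_mono {R : Type*} [CommRing R] [IsNoetherianRing R] (L L' : Ideal R) (G : Finset R)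
    (h : ∀ f, f ∈ L ↔ ∀ g ∈ G, f * g ∈ L') :
    associatedPrimes R (R ⧸ L) ⊆ associatedPrimes R (R ⧸ L') := by
  classical
  intro P hP
  rw [ass_iff] at hP ⊢
  obtain ⟨hprime, f, hf⟩ := hP
  refine ⟨hprime, ?_⟩
  by_contra hcon
  push Not at hcon
  have h1 : ∀ g ∈ G, ∃ r, r ∉ P ∧ r * (f * g) ∈ L' := by
    intro g hg
    obtain ⟨r, hr⟩ := hcon (f * g)
    rcases hr with ⟨hr1, hr2⟩ | ⟨hr1, hr2⟩
    · exfalso
      apply hr2
      rw [← mul_assoc]
      exact (h _).mp ((hf r).mp hr1) g hg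
    · exact ⟨r, hr1, hr2⟩
  choose! r hr1 hr2 using h1
  have h2 : ∏ g ∈ G, r g ∉ P := by
    intro hm
    obtain ⟨g, hg, hgP⟩ := (hprime.prod_mem_iff).mp hm
    exact hr1 g hg hgP
  apply h2
  rw [hf, h]
  intro g hg
  rw [← Finset.prod_erase_mul G r hg, mul_assoc, mul_assoc]
  exact Ideal.mul_mem_left _ _ (hr2 g hg)

lemma NN_image (B : Set (Fin n →₀ ℕ)) : NN (toZ '' B) := by
  rintro _ ⟨u, -, rfl⟩ x
  simp [Pool.Agent.X51.HS.toZ]

lemma NN_KB {B : Set (Fin n → ℤ)} (h : NN B) (m : ℕ) : NN (KB m B) := by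
  rintro _ ⟨b, hb, rfl⟩ x
  rw [Finset.sum_apply]
  exact Finset.sum_nonneg fun j _ => h _ (hb j) x

lemma good_nonneg {B : Set (Fin n → ℤ)} (h : NN B) {i : ℕ} {a : Fin n → ℤ} (ha : Good B i a)
    (x : Fin n) : 0 ≤ a x := by
  obtain ⟨⟨F, -, hm⟩, -⟩ := ha
  have h1 := h _ hm x
  have h2 := ch_nonneg F x
  simp only [Pi.sub_apply] at h1
  omega

lemma exists_toZ {a : Fin n → ℤ} (h : ∀ x, 0 ≤ a x) : ∃ u : Fin n →₀ ℕ, toZ u = a := by
  refine ⟨Finsupp.equivFunOnFinite.symm fun x => (a x).toNat, ?_⟩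
  funext x
  have := h x
  simp only [Pool.Agent.X51.HS.toZ, Finsupp.equivFunOnFinite_symm_apply_apply]
  omega

theorem persist {B : Set (Fin n →₀ ℕ)} {I : Ideal (MvPolynomial (Fin n) k)}
    (hI : I = Ideal.span ((fun u => MvPolynomial.monomial u (1 : k)) '' B)) {d : ℕ}
    (hex : ∀ u ∈ B, ∀ v ∈ B, ∀ p, v p < u p →
      ∃ q, u q < v q ∧ u - Finsupp.single p 1 + Finsupp.single q 1 ∈ B)
    (hd : ∀ u ∈ B, ∑ x, u x = d) (i m : ℕ) (hi : 0 < i) (him : i ≤ m) :
    associatedPrimes (MvPolynomial (Fin n) k) (MvPolynomial (Fin n) k ⧸ HS i (I ^ m)) ⊆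
      associatedPrimes (MvPolynomial (Fin n) k)
        (MvPolynomial (Fin n) k ⧸ HS i (I ^ (m + 1))) := by
  classical
  have hBZ : Exch (toZ '' B) := exch_of_nat hex
  have hdZ : Deg (toZ '' B) d := deg_of_nat hd
  rcases B.eq_empty_or_nonempty with rfl | hne
  · have hI0 : I = ⊥ := by rw [hI, Set.image_empty, Ideal.span_empty]
    have h1 : I ^ m = I ^ (m + 1) := by
      rw [hI0]
      rw [← Ideal.zero_eq_bot, zero_pow (by omega), zero_pow (by omega)]
    rw [h1]
  have hfin : B.Finite := by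
    refine Set.Finite.subset (Set.finite_Iic (Finsupp.equivFunOnFinite.symm fun _ : Fin n => d)) ?_
    intro u hu x
    rw [Finsupp.equivFunOnFinite_symm_apply_apply, ← hd u hu]
    exact Finset.single_le_sum (f := fun x => u x) (fun _ _ => Nat.zero_le _) (Finset.mem_univ x)
  have hpow : ∀ m, I ^ m = Ideal.span ((fun u => MvPolynomial.monomial u (1 : k)) '' (SB m B)) :=
    fun m => by rw [hI, span_pow]
  have hT : ∀ m a, TorNe (I ^ m) i a ↔ Good (KB m (toZ '' B)) i (toZ a) := by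
    intro m a
    rw [tor_good (hpow m) (d := m * d) (by rw [toZ_SB]; exact KB_exch hBZ m)
      (by rw [toZ_SB]; exact KB_deg hdZ m), toZ_SB]
  refine ass_mono _ _ (hfin.toFinset.image fun u => MvPolynomial.monomial u (1 : k)) fun f => ?_
  constructor
  · intro hf g hg
    obtain ⟨b, hb, rfl⟩ := Finset.mem_image.mp hg
    rw [Set.Finite.mem_toFinset] at hb
    rw [main hI hBZ hdZ i m him, mul_comm f]
    refine Ideal.mul_mem_mul ?_ hf
    rw [hI]
    exact Ideal.subset_span ⟨b, hb, rfl⟩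
  · intro hf
    unfold HS
    rw [MvPolynomial.mem_ideal_span_monomial_image]
    intro c hc
    have hCd : Deg {a | Good (KB m (toZ '' B)) i a} (m * d + i) := fun a ha =>
      good_sum (KB_deg hdZ m) ha
    obtain ⟨a, ha, hac⟩ := colon (hne.image toZ) (NN_image B)
      (good_exch (KB_exch hBZ m) (KB_deg hdZ m) (NN_KB (NN_image B) m) i) hCd (toZ c) (by
      rintro _ ⟨b, hb, rfl⟩
      have h1 := hf (MvPolynomial.monomial b (1 : k)) (Finset.mem_image.mpr
        ⟨b, by rwa [Set.Finite.mem_toFinset], rfl⟩)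
      unfold HS at h1
      rw [MvPolynomial.mem_ideal_span_monomial_image] at h1
      have h2 : c + b ∈ (f * MvPolynomial.monomial b (1 : k)).support := by
        rw [MvPolynomial.mem_support_iff, MvPolynomial.coeff_mul_monomial, mul_one]
        exact MvPolynomial.mem_support_iff.mp hc
      obtain ⟨a, ha, hle⟩ := h1 _ h2
      obtain ⟨b', hb', hg⟩ := split hBZ hdZ him ((hT _ a).mp ha)
      refine ⟨b', hb', _, hg, fun x => ?_⟩
      have h3 := hle x
      rw [add_sub_cancel, ← toZ_add]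
      simp only [Pool.Agent.X51.HS.toZ]
      exact_mod_cast h3)
    obtain ⟨w, rfl⟩ := exists_toZ (good_nonneg (NN_KB (NN_image B) m) ha)
    refine ⟨w, (hT m w).mpr ha, fun x => ?_⟩
    have h1 := hac x
    simp only [Pool.Agent.X51.HS.toZ] at h1
    exact_mod_cast h1

end Pool.Agent.X51.HS
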