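import Mathlib

/-!
Base sets of discrete polymatroids (M-convex sets), given by the one-sided exchange property, as
sets of integer vectors.
-/

set_option autoImplicit false

namespace Pool.Agent.X51.HS

open Finset

variable {n : ℕ}

/-- unit vector -/
def E (p : Fin n) : Fin n → ℤ := fun x => if x = p then 1 else 0

lemma E_self (p : Fin n) : E p p = 1 := by simp [E]

lemma E_ne {p x : Fin n} (h : x ≠ p) : E p x = 0 := by simp [E, h]

/-- characteristic vector -/
def ch (F : Finset (Fin n)) : Fin n → ℤ := fun x => if x ∈ F then 1 else 0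

/-- the exchange property -/
def Exch (B : Set (Fin n → ℤ)) : Prop :=
  ∀ u ∈ B, ∀ v ∈ B, ∀ p, v p < u p → ∃ q, u q < v q ∧ u - E p + E q ∈ B

/-- all elements have coordinate sum `d` -/
def Deg (B : Set (Fin n → ℤ)) (d : ℤ) : Prop := ∀ u ∈ B, ∑ x, u x = d

/-- distance -/
def ds (u v : Fin n → ℤ) : ℕ := ∑ x, (u x - v x).natAbs

lemma ds_comm (u v : Fin n → ℤ) : ds u v = ds v u := by
  unfold ds
  refine Finset.sum_congr rfl fun x _ => ?_
  omega

lemma ds_lt {u v : Fin n → ℤ} {p q : Fin n} (hp : v p < u p) (hq : u q < v q) :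
    ds (u - E p + E q) v < ds u v := by
  unfold ds
  have hpq : p ≠ q := by
    rintro rfl
    omega
  refine Finset.sum_lt_sum (fun x _ => ?_) ⟨p, Finset.mem_univ _, ?_⟩
  · simp only [Pi.add_apply, Pi.sub_apply, E]
    by_cases h1 : x = p
    · subst h1
      rw [if_pos rfl, if_neg hpq]
      omega
    · by_cases h2 : x = q
      · subst h2
        rw [if_neg h1, if_pos rfl]
        omega
      · rw [if_neg h1, if_neg h2]
        omega
  · simp only [Pi.add_apply, Pi.sub_apply]
    rw [E_self, E_ne hpq]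
    omega

/-- transitivity of exchanges -/
lemma exch_trans {B : Set (Fin n → ℤ)} (hB : Exch B) {w : Fin n → ℤ} {x y z : Fin n}
    (hxy : x ≠ y) (hxz : x ≠ z) (hyz : y ≠ z)
    (h1 : w + E x - E y ∈ B) (h2 : w + E y - E z ∈ B) : w + E x - E z ∈ B := by
  obtain ⟨q, hq, hm⟩ := hB _ h1 _ h2 z (by
    simp only [Pi.add_apply, Pi.sub_apply]
    rw [E_self, E_ne hyz.symm, E_ne hxz.symm]
    omega)
  have hqy : q = y := by
    by_contra hne
    simp only [Pi.add_apply, Pi.sub_apply, E] at hq
    rw [if_neg hne] at hq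
    by_cases h3 : q = x
    · by_cases h4 : q = z
      · exact hxz (h3.symm.trans h4)
      · rw [if_pos h3, if_neg h4] at hq
        omega
    · by_cases h4 : q = z
      · rw [if_neg h3, if_pos h4] at hq
        omega
      · rw [if_neg h3, if_neg h4] at hq
        omega
  subst hqy
  have : w + E x - E z = w + E x - E q - E z + E q := by abel
  rw [this]
  exact hm

lemma sum_E (p : Fin n) : ∑ x, E p x = 1 := by
  simp [E]

lemma sum_mem_E (R : Finset (Fin n)) (p : Fin n) : ∑ x ∈ R, E p x = if p ∈ R then 1 else 0 := by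
  simp [E]

/-- first step: a base larger on `R` -/
lemma stepA {B : Set (Fin n → ℤ)} (hB : Exch B) {d : ℤ} (hd : Deg B d) (u t : Fin n → ℤ)
    (R : Finset (Fin n)) (ht : t ∈ B) (htR : ∑ x ∈ R, u x < ∑ x ∈ R, t x) :
    ∀ N : ℕ, ∀ s ∈ B, (∀ x ∈ R, u x ≤ s x) → ds s t = N →
      ∃ s' ∈ B, (∀ x ∈ R, u x ≤ s' x) ∧ ∑ x ∈ R, u x < ∑ x ∈ R, s' x := by
  intro N
  induction N using Nat.strong_induction_on with
  | _ N ih =>
    intro s hs hsR hN
    by_cases hlt : ∑ x ∈ R, u x < ∑ x ∈ R, s x
    · exact ⟨s, hs, hsR, hlt⟩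
    · have hex : ∃ p, p ∉ R ∧ t p < s p := by
        by_contra hcon
        push Not at hcon
        have h1 : ∑ x ∈ Rᶜ, s x ≤ ∑ x ∈ Rᶜ, t x :=
          Finset.sum_le_sum fun x hx => hcon x (by simpa using hx)
        have h2 := hd s hs
        have h3 := hd t ht
        rw [← Finset.sum_add_sum_compl R] at h2 h3
        omega
      obtain ⟨p, hp, hpt⟩ := hex
      obtain ⟨q, hq, hm⟩ := hB s hs t ht p hpt
      refine ih _ (hN ▸ ds_lt hpt hq) _ hm (fun x hx => ?_) rfl
      have h1 := hsR x hx
      simp only [Pi.add_apply, Pi.sub_apply, E]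
      have : x ≠ p := fun h => hp (h ▸ hx)
      rw [if_neg this]
      split_ifs <;> omega

lemma stepB {B : Set (Fin n → ℤ)} (hB : Exch B) {d : ℤ} (hd : Deg B d) (u : Fin n → ℤ)
    (hu : u ∈ B) (R : Finset (Fin n)) :
    ∀ N : ℕ, ∀ s ∈ B, (∀ x ∈ R, u x ≤ s x) → ∑ x ∈ R, u x < ∑ x ∈ R, s x → ds s u = N →
      ∃ x ∈ R, ∃ y, y ∉ R ∧ u + E x - E y ∈ B := by
  intro N
  induction N using Nat.strong_induction_on with
  | _ N ih =>
    intro s hs hsR hlt hN
    obtain ⟨x0, hx0, hx0s⟩ : ∃ x ∈ R, u x < s x := Finset.exists_lt_of_sum_lt hlt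
    by_cases hy : ∃ y, u y + E x0 y < s y
    · obtain ⟨y, hy⟩ := hy
      have hE : (0 : ℤ) ≤ E x0 y := by unfold E; split_ifs <;> omega
      have huy : u y < s y := by omega
      obtain ⟨q, hq, hm⟩ := hB s hs u hu y huy
      have hqR : q ∉ R := fun h => by have := hsR q h; omega
      have hge : ∀ x ∈ R, u x + E x0 x ≤ (s - E y + E q) x := by
        intro x hx
        have h1 := hsR x hx
        simp only [Pi.add_apply, Pi.sub_apply, E] at hy ⊢
        by_cases h2 : x = y
        · subst h2
          rw [if_pos rfl]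
          split_ifs at hy ⊢ <;> omega
        · rw [if_neg h2]
          by_cases h3 : x = x0
          · subst h3
            rw [if_pos rfl]
            split_ifs <;> omega
          · rw [if_neg h3]
            split_ifs <;> omega
      refine ih _ (hN ▸ ds_lt huy hq) _ hm (fun x hx => ?_) ?_ rfl
      · have h1 := hge x hx
        have h2 : (0 : ℤ) ≤ E x0 x := by unfold E; split_ifs <;> omega
        omega
      · refine lt_of_lt_of_le ?_ (Finset.sum_le_sum hge)
        rw [Finset.sum_add_distrib, sum_mem_E, if_pos hx0]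
        omega
    · push Not at hy
      have hsum : ∑ y, s y < ∑ y, (u y + E x0 y) := by
        rw [Finset.sum_add_distrib, sum_E, hd s hs, hd u hu]
        omega
      obtain ⟨y0, -, hy0⟩ := Finset.exists_lt_of_sum_lt hsum
      have hle : ∀ y ∈ (Finset.univ : Finset (Fin n)), s y ≤ (u + E x0 - E y0) y := by
        intro y _
        have h1 := hy y
        simp only [Pi.add_apply, Pi.sub_apply]
        by_cases h2 : y = y0
        · subst h2
          have : E y y = 1 := by simp [E]
          omega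
        · have : E y0 y = 0 := by simp [E, h2]
          omega
      have heq : ∀ y ∈ (Finset.univ : Finset (Fin n)), s y = (u + E x0 - E y0) y := by
        rw [← Finset.sum_eq_sum_iff_of_le hle]
        simp only [Pi.add_apply, Pi.sub_apply]
        rw [Finset.sum_sub_distrib, Finset.sum_add_distrib, sum_E, sum_E, hd s hs, hd u hu]
        omega
      have hse : s = u + E x0 - E y0 := funext fun y => heq y (Finset.mem_univ _)
      refine ⟨x0, hx0, y0, fun hy0R => ?_, hse ▸ hs⟩
      have h1 := hsR y0 hy0R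
      by_cases h2 : y0 = x0
      · subst h2
        have : E y0 y0 = 1 := by simp [E]
        omega
      · have : E x0 y0 = 0 := by simp [E, h2]
        omega

/-- a set of coordinates without exchanges out of it is maximal at `u` -/
lemma closed_tight {B : Set (Fin n → ℤ)} (hB : Exch B) {d : ℤ} (hd : Deg B d) {u : Fin n → ℤ}
    (hu : u ∈ B) (R : Finset (Fin n)) (hR : ∀ x ∈ R, ∀ y, y ∉ R → u + E x - E y ∉ B)
    (v : Fin n → ℤ) (hv : v ∈ B) : ∑ x ∈ R, v x ≤ ∑ x ∈ R, u x := by
  by_contra hcon
  push Not at hcon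
  obtain ⟨s, hs, h1, h2⟩ := stepA hB hd u v R hv hcon _ u hu (fun x _ => le_rfl) rfl
  obtain ⟨x, hx, y, hy, h3⟩ := stepB hB hd u hu R _ s hs h1 h2 rfl
  exact hR x hx y hy h3

/-- exchange property of sums -/
lemma exch_sum {ι : Type} [Fintype ι] [DecidableEq ι] {B : Set (Fin n → ℤ)} (hB : Exch B) :
    ∀ N : ℕ, ∀ b c : ι → Fin n → ℤ, (∀ j, b j ∈ B) → (∀ j, c j ∈ B) →
      ∑ j, ds (b j) (c j) = N → ∀ p, (∑ j, c j) p < (∑ j, b j) p →
        ∃ q, (∑ j, b j) q < (∑ j, c j) q ∧ ∃ b' : ι → Fin n → ℤ, (∀ j, b' j ∈ B) ∧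
          ∑ j, b' j = ∑ j, b j - E p + E q := by
  intro N
  induction N using Nat.strong_induction_on with
  | _ N ih =>
    intro b c hb hc hN p hp
    rw [Finset.sum_apply, Finset.sum_apply] at hp
    obtain ⟨j, -, hj⟩ := Finset.exists_lt_of_sum_lt hp
    obtain ⟨q, hq, hm⟩ := hB _ (hb j) _ (hc j) p hj
    have hpq : p ≠ q := by
      rintro rfl
      omega
    let b1 : ι → Fin n → ℤ := Function.update b j (b j - E p + E q)
    have hb1 : ∀ l, b1 l ∈ B := by
      intro l
      by_cases h : l = j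
      · subst h
        simp only [b1, Function.update_self]
        exact hm
      · simp only [b1, Function.update_of_ne h]
        exact hb l
    have hs1 : ∑ l, b1 l = ∑ l, b l - E p + E q := by
      rw [← Finset.add_sum_erase _ _ (Finset.mem_univ j),
        ← Finset.add_sum_erase _ b (Finset.mem_univ j)]
      have h1 : ∑ l ∈ Finset.univ.erase j, b1 l = ∑ l ∈ Finset.univ.erase j, b l :=
        Finset.sum_congr rfl fun l hl => by
          simp only [b1, Function.update_of_ne (Finset.ne_of_mem_erase hl)]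
      rw [h1]
      simp only [b1, Function.update_self]
      abel
    by_cases hlt : (∑ l, b l) q < (∑ l, c l) q
    · exact ⟨q, hlt, b1, hb1, hs1⟩
    · have hds : ∑ l, ds (b1 l) (c l) < N := by
        rw [← hN]
        refine Finset.sum_lt_sum (fun l _ => ?_) ⟨j, Finset.mem_univ _, ?_⟩
        · by_cases h : l = j
          · subst h
            simp only [b1, Function.update_self]
            exact (ds_lt hj hq).le
          · simp only [b1, Function.update_of_ne h]
            exact le_rfl
        · simp only [b1, Function.update_self]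
          exact ds_lt hj hq
      have hq1 : (∑ l, c l) q < (∑ l, b1 l) q := by
        rw [hs1]
        simp only [Pi.add_apply, Pi.sub_apply]
        rw [E_self, E_ne hpq.symm]
        omega
      obtain ⟨l, hl, b', hb', hs'⟩ := ih _ hds b1 c hb1 hc rfl q hq1
      have hlq : l ≠ q := by
        rintro rfl
        omega
      have hlp : l ≠ p := by
        rintro rfl
        rw [hs1] at hl
        simp only [Pi.add_apply, Pi.sub_apply] at hl
        rw [E_self, E_ne hlq] at hl
        rw [Finset.sum_apply, Finset.sum_apply] at hl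
        omega
      refine ⟨l, ?_, b', hb', ?_⟩
      · rw [hs1] at hl
        simp only [Pi.add_apply, Pi.sub_apply] at hl
        rw [E_ne hlp, E_ne hlq] at hl
        omega
      · rw [hs', hs1]
        abel

/-- sums of `k` elements of `B` -/
def KB (k : ℕ) (B : Set (Fin n → ℤ)) : Set (Fin n → ℤ) :=
  {x | ∃ b : Fin k → Fin n → ℤ, (∀ j, b j ∈ B) ∧ x = ∑ j, b j}

lemma KB_exch {B : Set (Fin n → ℤ)} (hB : Exch B) (k : ℕ) : Exch (KB k B) := by
  rintro u ⟨b, hb, rfl⟩ v ⟨c, hc, rfl⟩ p hp
  obtain ⟨q, hq, b', hb', hs⟩ := exch_sum hB _ b c hb hc rfl p hp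
  exact ⟨q, hq, b', hb', hs.symm⟩

lemma KB_deg {B : Set (Fin n → ℤ)} {d : ℤ} (hd : Deg B d) (k : ℕ) : Deg (KB k B) (k * d) := by
  rintro u ⟨b, hb, rfl⟩
  simp only [Finset.sum_apply]
  rw [Finset.sum_comm, Finset.sum_congr rfl fun j _ => hd (b j) (hb j)]
  simp

/-- the combinatorial description of the non-vanishing multidegrees: the sets `F` of size `i` with
`a - 1_F ∈ C` are the bases of a coloop-free matroid -/
def Good (C : Set (Fin n → ℤ)) (i : ℕ) (a : Fin n → ℤ) : Prop :=
  (∃ F : Finset (Fin n), F.card = i ∧ a - ch F ∈ C) ∧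
    ∀ f, ∃ F : Finset (Fin n), f ∉ F ∧ F.card = i ∧ a - ch F ∈ C

lemma Good.add {B : Set (Fin n → ℤ)} {k i : ℕ} {a b : Fin n → ℤ} (h : Good (KB k B) i a)
    (hb : b ∈ B) : Good (KB (k + 1) B) i (b + a) := by
  have key : ∀ F : Finset (Fin n), a - ch F ∈ KB k B → b + a - ch F ∈ KB (k + 1) B := by
    rintro F ⟨c, hc, hs⟩
    refine ⟨Fin.cons b c, fun j => ?_, ?_⟩
    · refine Fin.cases ?_ (fun j => ?_) j
      · exact hb
      · exact hc j
    · rw [Fin.sum_univ_succ]
      simp only [Fin.cons_zero, Fin.cons_succ]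
      rw [← hs]
      abel
  obtain ⟨⟨F, h1, h2⟩, h3⟩ := h
  refine ⟨⟨F, h1, key F h2⟩, fun f => ?_⟩
  obtain ⟨G, h4, h5, h6⟩ := h3 f
  exact ⟨G, h4, h5, key G h6⟩

/-- choice of few labels -/
lemma few_labels {ι : Type} [DecidableEq ι] (Arc : ι → Fin n → Fin n → Prop) (F : Finset (Fin n))
    (h : ∀ R ⊆ F, R.Nonempty → ∃ x ∈ R, ∃ y, y ∉ R ∧ ∃ j, Arc j x y) :
    ∀ N : ℕ, ∀ G ⊆ F, G.card = N → ∃ L : Finset ι, L.card ≤ N ∧
      ∀ R ⊆ G, R.Nonempty → ∃ x ∈ R, ∃ y, y ∉ R ∧ ∃ j ∈ L, Arc j x y := by
  intro N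
  induction N with
  | zero =>
    intro G _ hG
    refine ⟨∅, by simp, fun R hR hne => ?_⟩
    rw [Finset.card_eq_zero] at hG
    subst hG
    rw [Finset.subset_empty] at hR
    subst hR
    exact absurd hne (by simp)
  | succ N ih =>
    intro G hG hcard
    have hne : G.Nonempty := Finset.card_pos.mp (by omega)
    obtain ⟨x, hx, y, hy, j, hj⟩ := h G hG hne
    obtain ⟨L, hL, hL2⟩ := ih (G.erase x) ((Finset.erase_subset _ _).trans hG)
      (by rw [Finset.card_erase_of_mem hx, hcard]; rfl)
    refine ⟨insert j L, (Finset.card_insert_le _ _).trans (by omega), fun R hR hRne => ?_⟩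
    by_cases hxR : x ∈ R
    · exact ⟨x, hxR, y, fun h' => hy (hR h'), j, Finset.mem_insert_self _ _, hj⟩
    · obtain ⟨x', hx', y', hy', j', hj', hA⟩ := hL2 R (fun z hz =>
        Finset.mem_erase.mpr ⟨fun h' => hxR (h' ▸ hz), hR hz⟩) hRne
      exact ⟨x', hx', y', hy', j', Finset.mem_insert_of_mem hj', hA⟩

lemma ch_insert_erase {F : Finset (Fin n)} {f g : Fin n} (hf : f ∈ F) (hg : g ∉ F) :
    ch (insert g (F.erase f)) = ch F - E f + E g := by
  funext x
  simp only [ch, E, Pi.add_apply, Pi.sub_apply, Finset.mem_insert, Finset.mem_erase]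
  by_cases h1 : x = g
  · subst h1
    have : x ≠ f := fun h => hg (h ▸ hf)
    simp [hg, this]
  · by_cases h2 : x = f
    · subst h2
      simp [h1, hf]
    · simp [h1, h2]

lemma sum_ch (F R : Finset (Fin n)) : ∑ x ∈ R, ch F x = ((F ∩ R).card : ℤ) := by
  unfold ch
  rw [Finset.sum_ite_mem, Finset.inter_comm]
  simp

/-- **the main combinatorial step** -/
theorem split {B : Set (Fin n → ℤ)} (hB : Exch B) {d : ℤ} (hd : Deg B d) {i k : ℕ} (hik : i ≤ k)
    {a : Fin n → ℤ} (ha : Good (KB (k + 1) B) i a) : ∃ b ∈ B, Good (KB k B) i (a - b) := by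
  classical
  obtain ⟨⟨F, hF, b, hb, hsum⟩, hcol⟩ := ha
  have hKd := KB_deg hd (k + 1)
  -- every nonempty subset of F has an arc out of it
  have harc : ∀ R ⊆ F, R.Nonempty → ∃ x ∈ R, ∃ y, y ∉ R ∧ ∃ j, b j + E x - E y ∈ B := by
    intro R hRF hne
    by_contra hcon
    push Not at hcon
    obtain ⟨f, hf⟩ := hne
    obtain ⟨F', hfF', hcard, c, hc, hsum'⟩ := hcol f
    have h1 : ∀ j, ∑ x ∈ R, c j x ≤ ∑ x ∈ R, b j x := fun j =>
      closed_tight hB hd (hb j) R (fun x hx y hy => hcon x hx y hy j) _ (hc j)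
    have h2 : ∑ x ∈ R, (a - ch F') x ≤ ∑ x ∈ R, (a - ch F) x := by
      rw [hsum', hsum]
      simp only [Finset.sum_apply]
      rw [Finset.sum_comm, Finset.sum_comm (s := R)]
      exact Finset.sum_le_sum fun j _ => h1 j
    simp only [Pi.sub_apply] at h2
    rw [Finset.sum_sub_distrib, Finset.sum_sub_distrib, sum_ch, sum_ch,
      Finset.inter_eq_right.mpr hRF] at h2
    have h3 : (F' ∩ R).card < R.card := by
      refine Finset.card_lt_card ((Finset.ssubset_iff_of_subset Finset.inter_subset_right).mpr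
        ⟨f, hf, fun h => hfF' (Finset.mem_of_mem_inter_left h)⟩)
    omega
  obtain ⟨L, hL, hL2⟩ := few_labels (fun (j : Fin (k + 1)) x y => b j + E x - E y ∈ B) F harc _ F
    subset_rfl rfl
  -- a label which is not used
  obtain ⟨j0, hj0⟩ : ∃ j0 : Fin (k + 1), j0 ∉ L := by
    by_contra hcon
    push Not at hcon
    have h1 : (Finset.univ : Finset (Fin (k + 1))) ⊆ L := fun j _ => hcon j
    have h2 := Finset.card_le_card h1
    rw [Finset.card_univ, Fintype.card_fin] at h2
    omega
  have hp : a - b j0 - ch F ∈ KB k B := by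
    refine ⟨fun j => b (j0.succAbove j), fun j => hb _, ?_⟩
    rw [Fin.sum_univ_succAbove b j0] at hsum
    have : a - b j0 - ch F = (a - ch F) - b j0 := by abel
    rw [this, hsum]
    abel
  have hmove : ∀ j, j ≠ j0 → ∀ x y, b j + E x - E y ∈ B →
      (a - b j0 - ch F) + E x - E y ∈ KB k B := by
    intro j hj x y hxy
    obtain ⟨l, rfl⟩ := Fin.exists_succAbove_eq hj
    refine ⟨Function.update (fun j => b (j0.succAbove j)) l
      (b (j0.succAbove l) + E x - E y), fun m => ?_, ?_⟩
    · by_cases h : m = l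
      · subst h
        rw [Function.update_self]
        exact hxy
      · rw [Function.update_of_ne h]
        exact hb _
    · rw [Fin.sum_univ_succAbove b j0] at hsum
      have e1 : ∑ m, Function.update (fun j => b (j0.succAbove j)) l
          (b (j0.succAbove l) + E x - E y) m = ∑ m, b (j0.succAbove m) + E x - E y := by
        rw [← Finset.add_sum_erase _ _ (Finset.mem_univ l),
          ← Finset.add_sum_erase _ (fun m => b (j0.succAbove m)) (Finset.mem_univ l),
          Function.update_self]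
        have h1 : ∑ m ∈ Finset.univ.erase l, Function.update (fun j => b (j0.succAbove j)) l
            (b (j0.succAbove l) + E x - E y) m = ∑ m ∈ Finset.univ.erase l, b (j0.succAbove m) :=
          Finset.sum_congr rfl fun m hm => by
            rw [Function.update_of_ne (Finset.ne_of_mem_erase hm)]
        rw [h1]
        abel
      rw [e1]
      have : a - b j0 - ch F = (a - ch F) - b j0 := by abel
      rw [this, hsum]
      abel
  refine ⟨b j0, hb j0, ⟨F, hF, hp⟩, fun f => ?_⟩
  by_cases hfF : f ∈ F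
  · -- the set reachable from f
    let C : Finset (Fin n) := Finset.univ.filter fun y =>
      y = f ∨ (a - b j0 - ch F) + E f - E y ∈ KB k B
    have hfC : f ∈ C := by simp [C]
    have hCF : ¬ C ⊆ F := by
      intro hCF
      obtain ⟨x, hx, y, hy, j, hj, hxy⟩ := hL2 C hCF ⟨f, hfC⟩
      have hjj : j ≠ j0 := fun h => hj0 (h ▸ hj)
      have h1 := hmove j hjj x y hxy
      have hyf : y ≠ f := fun h => hy (h ▸ hfC)
      simp only [C, Finset.mem_filter, Finset.mem_univ, true_and, not_or] at hx hy
      rcases hx with hx | hx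
      · subst hx
        exact hy.2 h1
      · have hxy' : x ≠ y := by
          rintro rfl
          exact hy.2 hx
        by_cases hxf : x = f
        · subst hxf
          exact hy.2 h1
        · exact hy.2 (exch_trans (KB_exch hB k) (Ne.symm hxf) hyf.symm hxy' hx h1)
    obtain ⟨g, hgC, hgF⟩ := Finset.not_subset.mp hCF
    simp only [C, Finset.mem_filter, Finset.mem_univ, true_and] at hgC
    rcases hgC with hgC | hgC
    · exact absurd (hgC ▸ hfF) hgF
    · refine ⟨insert g (F.erase f), ?_, ?_, ?_⟩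
      · simp only [Finset.mem_insert, Finset.mem_erase, not_or, not_and]
        exact ⟨fun h => hgF (h ▸ hfF), fun h => absurd rfl h⟩
      · rw [Finset.card_insert_of_notMem (fun h => hgF (Finset.mem_of_mem_erase h)),
          Finset.card_erase_of_mem hfF, hF]
        have : 0 < F.card := Finset.card_pos.mpr ⟨f, hfF⟩
        omega
      · rw [ch_insert_erase hfF hgF]
        have : a - b j0 - (ch F - E f + E g) = a - b j0 - ch F + E f - E g := by abel
        rw [this]
        exact hgC
  · exact ⟨F, hfF, hF, hp⟩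

end Pool.Agent.X51.HS
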