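import Pool.Agent.H677R3.RegKoszul

/-!
Homology of the independence complexes of matroids, in terms of the combinatorial Koszul
differential `cd`.
-/

set_option autoImplicit false

namespace Pool.Agent.X51.HS

open Finset Pool.Agent.H677R3.EdgeReg

variable {n : ℕ}

/-- independent sets of a matroid on a subset of `Fin n` -/
structure Mat (Q : Finset (Fin n) → Prop) : Prop where
  down : ∀ T j, Q (insert j T) → Q T
  aug : ∀ A B, Q A → Q B → A.card < B.card → ∃ x ∈ B, x ∉ A ∧ Q (insert x A)

lemma Mat.mono {Q : Finset (Fin n) → Prop} (hQ : Mat Q) {S T : Finset (Fin n)} (h : S ⊆ T)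
    (hT : Q T) : Q S := by
  classical
  induction' hN : (T \ S).card using Nat.strong_induction_on with N ih generalizing T
  by_cases hST : T ⊆ S
  · rw [Finset.Subset.antisymm h hST]
    exact hT
  · obtain ⟨x, hx, hxS⟩ := Finset.not_subset.mp hST
    refine ih _ ?_ (T := T.erase x) (Finset.subset_erase.mpr ⟨h, hxS⟩)
      (hQ.down _ x (by rwa [Finset.insert_erase hx])) rfl
    rw [← hN]
    refine Finset.card_lt_card (Finset.ssubset_iff_subset_ne.mpr ⟨?_, ?_⟩)
    · exact Finset.sdiff_subset_sdiff (Finset.erase_subset _ _) subset_rfl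
    · intro heq
      have h1 : x ∈ T \ S := Finset.mem_sdiff.mpr ⟨hx, hxS⟩
      rw [← heq] at h1
      simp at h1

/-- extension of an independent set by elements of another one -/
lemma Mat.ext {Q : Finset (Fin n) → Prop} (hQ : Mat Q) {B : Finset (Fin n)} (hB : Q B) :
    ∀ (A : Finset (Fin n)), Q A → A.card ≤ B.card →
      ∃ C, A ⊆ C ∧ C ⊆ A ∪ B ∧ Q C ∧ C.card = B.card := by
  intro A
  induction' hN : (B.card - A.card) using Nat.strong_induction_on with N ih generalizing A
  intro hA hc
  rcases Nat.lt_or_ge A.card B.card with hlt | hge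
  · obtain ⟨x, hx, hxA, hQx⟩ := hQ.aug A B hA hB hlt
    have hcx : (insert x A).card = A.card + 1 := Finset.card_insert_of_notMem hxA
    obtain ⟨C, h1, h2, h3, h4⟩ := ih (B.card - (insert x A).card) (by omega) (insert x A) rfl hQx
      (by omega)
    refine ⟨C, (Finset.subset_insert _ _).trans h1, h2.trans ?_, h3, h4⟩
    intro y hy
    rcases Finset.mem_union.mp hy with h | h
    · rcases Finset.mem_insert.mp h with h | h
      · subst h
        exact Finset.mem_union_right _ hx
      · exact Finset.mem_union_left _ h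
    · exact Finset.mem_union_right _ h
  · exact ⟨A, subset_rfl, Finset.subset_union_left, hA, le_antisymm hc hge⟩

/-- deletion -/
lemma Mat.del {Q : Finset (Fin n) → Prop} (hQ : Mat Q) (e : Fin n) :
    Mat (fun T => Q T ∧ e ∉ T) where
  down T j h := ⟨hQ.down T j h.1, fun h' => h.2 (Finset.mem_insert_of_mem h')⟩
  aug A B hA hB hlt := by
    obtain ⟨x, hx, hxA, hQx⟩ := hQ.aug A B hA.1 hB.1 hlt
    refine ⟨x, hx, hxA, hQx, ?_⟩
    rw [Finset.mem_insert, not_or]
    exact ⟨fun h => hB.2 (h ▸ hx), hA.2⟩

/-- contraction -/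
lemma Mat.con {Q : Finset (Fin n) → Prop} (hQ : Mat Q) (e : Fin n) :
    Mat (fun T => Q (insert e T) ∧ e ∉ T) where
  down T j h := ⟨hQ.down _ j (by rw [Finset.insert_comm]; exact h.1),
    fun h' => h.2 (Finset.mem_insert_of_mem h')⟩
  aug A B hA hB hlt := by
    obtain ⟨x, hx, hxA, hQx⟩ := hQ.aug (insert e A) (insert e B) hA.1 hB.1 (by
      rw [Finset.card_insert_of_notMem hA.2, Finset.card_insert_of_notMem hB.2]
      omega)
    have hxe : x ≠ e := fun h => hxA (h ▸ Finset.mem_insert_self _ _)
    refine ⟨x, ?_, fun h => hxA (Finset.mem_insert_of_mem h), ?_, ?_⟩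
    · rcases Finset.mem_insert.mp hx with h | h
      · exact absurd h hxe
      · exact h
    · rw [Finset.insert_comm]
      exact hQx
    · rw [Finset.mem_insert, not_or]
      exact ⟨fun h => hxe h.symm, hA.2⟩

variable {k : Type*} [Field k]

lemma supp_hv {z : Finset (Fin n) → k} {e : Fin n} {T : Finset (Fin n)} (h : hv e z T ≠ 0) :
    e ∈ T ∧ z (T.erase e) ≠ 0 := by
  unfold hv at h
  split_ifs at h with he
  · exact ⟨he, fun h' => h (by rw [h', mul_zero])⟩
  · exact absurd rfl h

lemma cd_hv {z : Finset (Fin n) → k} (hz : ∀ T, cd z T = 0) (e : Fin n) (T : Finset (Fin n)) :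
    cd (hv e z) T = z T := by
  have h1 := homotopy e z T
  have h2 : hv e (cd z) T = 0 := by
    unfold hv
    split_ifs
    · rw [hz, mul_zero]
    · rfl
  rwa [h2, add_zero] at h1

/-- matroid complexes have no homology below the top dimension -/
theorem vanish : ∀ N : ℕ, ∀ (Q : Finset (Fin n) → Prop), Mat Q → ∀ U : Finset (Fin n),
    (∀ T, Q T → T ⊆ U) → U.card = N → ∀ r, (∃ F, Q F ∧ F.card = r) → ∀ i, i < r →
      ∀ z : Finset (Fin n) → k, (∀ T, z T ≠ 0 → Q T ∧ T.card = i) → (∀ T, cd z T = 0) →
        ∃ g : Finset (Fin n) → k, (∀ T, g T ≠ 0 → Q T ∧ T.card = i + 1) ∧ ∀ T, cd g T = z T := by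
  classical
  intro N
  induction N using Nat.strong_induction_on with
  | _ N ih =>
    intro Q hQ U hU hUN r hr i hi z hz hc
    obtain ⟨F, hF, hFr⟩ := hr
    obtain ⟨e, he⟩ : F.Nonempty := Finset.card_pos.mp (by omega)
    have heU : e ∈ U := hU F hF he
    have hUe : (U.erase e).card < N := by
      rw [← hUN]
      exact Finset.card_erase_lt_of_mem heU
    have hQe : Q {e} := hQ.mono (Finset.singleton_subset_iff.mpr he) hF
    by_cases hcol : ∀ G, Q G → G.card = r → e ∈ G
    · -- a cone
      have hins : ∀ T, Q T → Q (insert e T) := by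
        intro T hT
        by_cases hTr : T.card ≤ r
        · obtain ⟨C, h1, h2, h3, h4⟩ := hQ.ext hF T hT (by omega)
          exact hQ.mono (Finset.insert_subset (hcol C h3 (by omega)) h1) h3
        · -- larger sets: a subset of size r contains e
          obtain ⟨S, hS, hSr⟩ := Finset.exists_subset_card_eq (show r ≤ T.card by omega)
          have : e ∈ T := hS (hcol S (hQ.mono hS hT) hSr)
          rwa [Finset.insert_eq_of_mem this]
      refine ⟨hv e z, fun T hT => ?_, cd_hv hc e⟩
      obtain ⟨h1, h2⟩ := supp_hv hT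
      obtain ⟨h3, h4⟩ := hz _ h2
      refine ⟨?_, ?_⟩
      · have := hins _ h3
        rwa [Finset.insert_erase h1] at this
      · rw [← h4, Finset.card_erase_of_mem h1]
        have : 0 < T.card := Finset.card_pos.mpr ⟨e, h1⟩
        omega
    · push Not at hcol
      obtain ⟨G, hG, hGr, heG⟩ := hcol
      let zl : Finset (Fin n) → k := fun T => if e ∈ T then 0 else sg k e T * z (insert e T)
      let zd : Finset (Fin n) → k := fun T => if e ∈ T then 0 else z T
      have hzdec : ∀ T, z T = hv e zl T + zd T := by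
        intro T
        by_cases h : e ∈ T
        · simp only [zl, zd, hv, if_pos h, if_neg (Finset.notMem_erase e T),
            Finset.insert_erase h, add_zero]
          rw [← mul_assoc, sg_mul_self, one_mul]
        · simp only [zd, hv, if_neg h, zero_add]
      have hsum : ∀ T, cd (hv e zl) T + cd zd T = 0 := by
        intro T
        rw [← cd_add, ← hc T]
        congr 1
        funext T
        exact (hzdec T).symm
      have hzdT : ∀ T, e ∈ T → cd zd T = 0 := by
        intro T hT
        unfold cd
        refine Finset.sum_eq_zero fun j _ => ?_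
        simp only [zd, if_pos (Finset.mem_insert_of_mem hT), mul_zero]
      have hcl : ∀ T, cd zl T = 0 := by
        intro T
        by_cases h : e ∈ T
        · unfold cd
          refine Finset.sum_eq_zero fun j _ => ?_
          simp only [zl, if_pos (Finset.mem_insert_of_mem h), mul_zero]
        · have h1 := hsum (insert e T)
          rw [hzdT _ (Finset.mem_insert_self _ _), add_zero] at h1
          have h2 := homotopy e zl (insert e T)
          rw [h1, zero_add] at h2
          have h3 : zl (insert e T) = 0 := by simp only [zl, if_pos (Finset.mem_insert_self _ _)]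
          rw [h3] at h2
          unfold hv at h2
          rw [if_pos (Finset.mem_insert_self _ _), Finset.erase_insert h] at h2
          have h4 : sg k e T * (sg k e T * cd zl T) = 0 := by rw [h2, mul_zero]
          rwa [← mul_assoc, sg_mul_self, one_mul] at h4
      -- the link part is a boundary in the contraction
      obtain ⟨w, hw1, hw2⟩ : ∃ w : Finset (Fin n) → k,
          (∀ T, w T ≠ 0 → (Q (insert e T) ∧ e ∉ T) ∧ T.card = i) ∧ ∀ T, cd w T = zl T := by
        have hzl : ∀ T, zl T ≠ 0 → (Q (insert e T) ∧ e ∉ T) ∧ T.card + 1 = i := by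
          intro T hT
          simp only [zl] at hT
          split_ifs at hT with h
          · exact absurd rfl hT
          · have h1 : z (insert e T) ≠ 0 := fun h' => hT (by rw [h', mul_zero])
            obtain ⟨h2, h3⟩ := hz _ h1
            rw [Finset.card_insert_of_notMem h] at h3
            exact ⟨⟨h2, h⟩, h3⟩
        rcases Nat.eq_zero_or_pos i with hi0 | hi0
        · refine ⟨fun _ => 0, fun T h => absurd rfl h, fun T => ?_⟩
          rw [cd_zero]
          by_contra h
          have := (hzl T (fun h' => h h'.symm)).2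
          omega
        · obtain ⟨w, h1, h2⟩ := ih _ hUe (fun T => Q (insert e T) ∧ e ∉ T) (hQ.con e) (U.erase e)
            (fun T hT x hx => Finset.mem_erase.mpr ⟨fun h => hT.2 (h ▸ hx),
              hU _ hT.1 (Finset.mem_insert_of_mem hx)⟩) rfl (r - 1)
            ⟨F.erase e, ⟨by rwa [Finset.insert_erase he], Finset.notMem_erase _ _⟩,
              by rw [Finset.card_erase_of_mem he, hFr]⟩ (i - 1) (by omega) zl
            (fun T hT => ⟨(hzl T hT).1, by have := (hzl T hT).2; omega⟩) hcl
          refine ⟨w, fun T hT => ⟨(h1 T hT).1, ?_⟩, h2⟩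
          have := (h1 T hT).2
          omega
      -- the rest is a cycle of the deletion
      have hcyc : ∀ T, cd (fun T => zd T + w T) T = 0 := by
        intro T
        rw [cd_add, hw2]
        have h1 := hsum T
        rw [cd_hv hcl] at h1
        rw [add_comm]
        exact h1
      obtain ⟨g, hg1, hg2⟩ := ih _ hUe (fun T => Q T ∧ e ∉ T) (hQ.del e) (U.erase e)
        (fun T hT x hx => Finset.mem_erase.mpr ⟨fun h => hT.2 (h ▸ hx), hU _ hT.1 hx⟩) rfl r
        ⟨G, ⟨hG, heG⟩, hGr⟩ i hi (fun T => zd T + w T) (fun T hT => by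
          by_cases h : e ∈ T
          · exfalso
            apply hT
            have h1 : w T = 0 := by
              by_contra h'
              exact (hw1 T h').1.2 h
            simp only [zd, if_pos h, h1, add_zero]
          · by_cases h1 : w T = 0
            · simp only [zd, if_neg h, h1, add_zero] at hT
              exact ⟨⟨(hz T hT).1, h⟩, (hz T hT).2⟩
            · exact ⟨⟨hQ.down T e (hw1 T h1).1.1, h⟩, (hw1 T h1).2⟩) hcyc
      refine ⟨fun T => g T - hv e w T, fun T hT => ?_, fun T => ?_⟩
      · by_cases h : g T = 0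
        · have h1 : hv e w T ≠ 0 := fun h' => hT (by simp only [h, h', sub_zero])
          obtain ⟨h2, h3⟩ := supp_hv h1
          obtain ⟨h4, h5⟩ := hw1 _ h3
          rw [Finset.insert_erase h2] at h4
          refine ⟨h4.1, ?_⟩
          rw [← h5, Finset.card_erase_of_mem h2]
          have : 0 < T.card := Finset.card_pos.mpr ⟨e, h2⟩
          omega
        · exact ⟨(hg1 T h).1.1, (hg1 T h).2⟩
      · rw [cd_sub, hg2]
        have h1 := homotopy e w T
        have h2 : hv e (cd w) T = hv e zl T := by
          have : cd w = zl := funext hw2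
          rw [this]
        rw [h2] at h1
        rw [hzdec T]
        linear_combination -h1

/-- coloop-free matroid complexes have nonzero top homology -/
theorem top_cycle : ∀ r : ℕ, ∀ (Q : Finset (Fin n) → Prop), Mat Q →
    (∃ F, Q F ∧ F.card = r) → (∀ f, ∃ F, f ∉ F ∧ Q F ∧ F.card = r) →
      ∃ z : Finset (Fin n) → k, (∀ T, z T ≠ 0 → Q T ∧ T.card = r) ∧ (∀ T, cd z T = 0) ∧
        ∃ T, z T ≠ 0 := by
  classical
  intro r
  induction r with
  | zero =>
    intro Q hQ hr _
    obtain ⟨F, hF, hF0⟩ := hr
    rw [Finset.card_eq_zero] at hF0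
    subst hF0
    refine ⟨fun T => if T = ∅ then 1 else 0, fun T hT => ?_, fun T => ?_, ∅, by simp⟩
    · beta_reduce at hT
      split_ifs at hT with h
      · subst h
        exact ⟨hF, rfl⟩
      · exact absurd rfl hT
    · unfold cd
      refine Finset.sum_eq_zero fun j _ => ?_
      beta_reduce
      rw [if_neg (Finset.insert_ne_empty _ _), mul_zero]
  | succ r ih =>
    intro Q hQ hr hcol
    obtain ⟨F, hF, hFr⟩ := hr
    obtain ⟨e, he⟩ : F.Nonempty := Finset.card_pos.mp (by omega)
    have hQe : Q {e} := hQ.mono (Finset.singleton_subset_iff.mpr he) hF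
    obtain ⟨z2, h1, h2, T0, hT0⟩ := ih (fun T => Q (insert e T) ∧ e ∉ T) (hQ.con e)
      ⟨F.erase e, ⟨by rwa [Finset.insert_erase he], Finset.notMem_erase _ _⟩,
        by rw [Finset.card_erase_of_mem he, hFr]; rfl⟩ (fun f => by
        by_cases hfe : f = e
        · subst hfe
          exact ⟨F.erase f, Finset.notMem_erase _ _,
            ⟨by rwa [Finset.insert_erase he], Finset.notMem_erase _ _⟩,
            by rw [Finset.card_erase_of_mem he, hFr]; rfl⟩
        · obtain ⟨G, hfG, hG, hGr⟩ := hcol f
          obtain ⟨C, h1, h2, h3, h4⟩ := hQ.ext hG {e} hQe (by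
            rw [Finset.card_singleton]
            omega)
          have heC : e ∈ C := Finset.singleton_subset_iff.mp h1
          refine ⟨C.erase e, fun h => ?_, ⟨by rwa [Finset.insert_erase heC],
            Finset.notMem_erase _ _⟩, by rw [Finset.card_erase_of_mem heC, h4, hGr]; rfl⟩
          rcases Finset.mem_union.mp (h2 (Finset.mem_of_mem_erase h)) with h5 | h5
          · exact hfe (Finset.mem_singleton.mp h5)
          · exact hfG h5)
    obtain ⟨G, heG, hG, hGr⟩ := hcol e
    obtain ⟨w, hw1, hw2⟩ := vanish _ (fun T => Q T ∧ e ∉ T) (hQ.del e) Finset.univ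
      (fun T _ => Finset.subset_univ T) rfl (r + 1) ⟨G, ⟨hG, heG⟩, hGr⟩ r (by omega) z2
      (fun T hT => ⟨⟨hQ.down T e (h1 T hT).1.1, (h1 T hT).1.2⟩, (h1 T hT).2⟩) h2
    refine ⟨fun T => hv e z2 T - w T, fun T hT => ?_, fun T => ?_, insert e T0, ?_⟩
    · by_cases h : w T = 0
      · have h3 : hv e z2 T ≠ 0 := fun h' => hT (by simp only [h, h', sub_zero])
        obtain ⟨h4, h5⟩ := supp_hv h3
        obtain ⟨h6, h7⟩ := h1 _ h5
        rw [Finset.insert_erase h4] at h6
        refine ⟨h6.1, ?_⟩
        rw [← h7, Finset.card_erase_of_mem h4]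
        have : 0 < T.card := Finset.card_pos.mpr ⟨e, h4⟩
        omega
      · exact ⟨(hw1 T h).1.1, (hw1 T h).2⟩
    · rw [cd_sub, cd_hv h2, hw2, sub_self]
    · have heT0 : e ∉ T0 := (h1 T0 hT0).1.2
      have h3 : w (insert e T0) = 0 := by
        by_contra h
        exact (hw1 _ h).1.2 (Finset.mem_insert_self _ _)
      simp only [h3, sub_zero, hv, if_pos (Finset.mem_insert_self e T0),
        Finset.erase_insert heT0]
      refine mul_ne_zero ?_ hT0
      unfold sg
      exact pow_ne_zero _ (neg_ne_zero.mpr one_ne_zero)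

end Pool.Agent.X51.HS
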