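import Pool.Agent.X51.HS.Exch
import Pool.Agent.X51.HS.Mat

/-!
The upper Koszul complexes of a polymatroidal ideal are matroid complexes.
-/

set_option autoImplicit false

namespace Pool.Agent.X51.HS

open Finset

variable {n : ℕ}

/-- the upper Koszul complex at `a` -/
def Ind (B : Set (Fin n → ℤ)) (a : Fin n → ℤ) (F : Finset (Fin n)) : Prop :=
  ∃ b ∈ B, ∀ x, b x + ch F x ≤ a x

lemma ch_mem {F : Finset (Fin n)} {x : Fin n} (h : x ∈ F) : ch F x = 1 := by simp [ch, h]

lemma ch_not {F : Finset (Fin n)} {x : Fin n} (h : x ∉ F) : ch F x = 0 := by simp [ch, h]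

lemma ch_nonneg (F : Finset (Fin n)) (x : Fin n) : 0 ≤ ch F x := by
  unfold ch
  split_ifs <;> omega

lemma ind_down {B : Set (Fin n → ℤ)} {a : Fin n → ℤ} (T : Finset (Fin n)) (j : Fin n)
    (h : Ind B a (insert j T)) : Ind B a T := by
  obtain ⟨b, hb, h1⟩ := h
  refine ⟨b, hb, fun x => ?_⟩
  have h2 := h1 x
  by_cases hx : x ∈ T
  · rw [ch_mem hx]
    rwa [ch_mem (Finset.mem_insert_of_mem hx)] at h2
  · rw [ch_not hx]
    have := ch_nonneg (insert j T) x
    omega

lemma ind_insert' {B : Set (Fin n → ℤ)} {a u : Fin n → ℤ} {A : Finset (Fin n)} {x : Fin n}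
    (hu : u ∈ B) (h : ∀ y, u y + ch A y ≤ a y) (hx : x ∉ A) (hxa : u x + 1 ≤ a x) :
    Ind B a (insert x A) := by
  refine ⟨u, hu, fun y => ?_⟩
  by_cases hy : y = x
  · subst hy
    rw [ch_mem (Finset.mem_insert_self _ _)]
    exact hxa
  · have : ch (insert x A) y = ch A y := by
      unfold ch
      simp [Finset.mem_insert, hy]
    rw [this]
    exact h y

lemma ind_aug_aux {B : Set (Fin n → ℤ)} (hB : Exch B) (a u : Fin n → ℤ) (hu : u ∈ B)
    (A : Finset (Fin n)) (hA : ∀ y, u y + ch A y ≤ a y) :
    ∀ N : ℕ, ∀ v ∈ B, ∀ A' : Finset (Fin n), (∀ y, v y + ch A' y ≤ a y) → A.card < A'.card →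
      ds v u = N → ∃ x ∈ A', x ∉ A ∧ Ind B a (insert x A) := by
  intro N
  induction N using Nat.strong_induction_on with
  | _ N ih =>
    intro v hv A' hA' hlt hN
    obtain ⟨x, hxA', hxA⟩ : ∃ x ∈ A', x ∉ A := by
      by_contra hcon
      push Not at hcon
      have := Finset.card_le_card (show A' ⊆ A from hcon)
      omega
    by_cases hxa : u x + 1 ≤ a x
    · exact ⟨x, hxA', hxA, ind_insert' hu hA hxA hxa⟩
    have h1 := hA x
    have h2 := hA' x
    rw [ch_mem hxA'] at h2
    rw [ch_not hxA] at h1
    have hvx : v x < u x := by omega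
    obtain ⟨q, hq, hm⟩ := hB u hu v hv x hvx
    have hqx : q ≠ x := by
      rintro rfl
      omega
    have h3 := hA q
    have h4 := hA' q
    by_cases hc : u q + ch A q + 1 ≤ a q
    · -- exchange on u
      refine ⟨x, hxA', hxA, ?_⟩
      refine ind_insert' hm (fun y => ?_) hxA ?_
      · have h5 := hA y
        simp only [Pi.add_apply, Pi.sub_apply]
        by_cases hyx : y = x
        · subst hyx
          rw [E_self, E_ne hqx.symm]
          omega
        · by_cases hyq : y = q
          · subst hyq
            rw [E_self, E_ne hyx]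
            omega
          · rw [E_ne hyx, E_ne hyq]
            omega
      · simp only [Pi.add_apply, Pi.sub_apply]
        rw [E_self, E_ne hqx.symm]
        omega
    · have hqA : q ∈ A := by
        by_contra h
        rw [ch_not h] at hc h3
        have := ch_nonneg A' q
        omega
      rw [ch_mem hqA] at hc h3
      have hqA' : q ∉ A' := by
        intro h
        rw [ch_mem h] at h4
        omega
      rw [ch_not hqA'] at h4
      -- exchange on v
      obtain ⟨h, hh, hm'⟩ := hB v hv u hu q hq
      have hhq : h ≠ q := by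
        rintro rfl
        omega
      have h5 := hA' h
      have h6 := hA h
      by_cases hc' : v h + ch A' h + 1 ≤ a h
      · refine ih _ (hN ▸ ds_lt hq hh) _ hm' A' (fun y => ?_) hlt rfl
        have h7 := hA' y
        simp only [Pi.add_apply, Pi.sub_apply]
        by_cases hyq : y = q
        · subst hyq
          rw [E_self, E_ne hhq.symm]
          omega
        · by_cases hyh : y = h
          · subst hyh
            rw [E_self, E_ne hyq]
            omega
          · rw [E_ne hyq, E_ne hyh]
            omega
      · have hhA' : h ∈ A' := by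
          by_contra h'
          rw [ch_not h'] at hc' h5
          have := ch_nonneg A h
          omega
        rw [ch_mem hhA'] at hc' h5
        have hhA : h ∉ A := by
          intro h'
          rw [ch_mem h'] at h6
          omega
        obtain ⟨y, hy, hyA, hI⟩ := ih _ (hN ▸ ds_lt hq hh) _ hm' (insert q (A'.erase h))
          (fun y => by
            rw [ch_insert_erase hhA' hqA']
            have h7 := hA' y
            simp only [Pi.add_apply, Pi.sub_apply]
            omega) (by
            rw [Finset.card_insert_of_notMem (fun h' => hqA' (Finset.mem_of_mem_erase h')),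
              Finset.card_erase_of_mem hhA']
            omega) rfl
        refine ⟨y, ?_, hyA, hI⟩
        rcases Finset.mem_insert.mp hy with h' | h'
        · exact absurd (h' ▸ hqA) hyA
        · exact Finset.mem_of_mem_erase h'

/-- the upper Koszul complex is a matroid complex -/
lemma ind_mat {B : Set (Fin n → ℤ)} (hB : Exch B) (a : Fin n → ℤ) : Mat (Ind B a) where
  down := ind_down
  aug := by
    rintro A A' ⟨u, hu, hA⟩ ⟨v, hv, hA'⟩ hlt
    exact ind_aug_aux hB a u hu A hA _ v hv A' hA' hlt rfl

lemma ind_card {B : Set (Fin n → ℤ)} {d : ℤ} (hd : Deg B d) {a : Fin n → ℤ}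
    {F : Finset (Fin n)} (h : Ind B a F) : d + F.card ≤ ∑ x, a x := by
  obtain ⟨b, hb, h1⟩ := h
  have h2 := Finset.sum_le_sum fun x (_ : x ∈ Finset.univ) => h1 x
  rw [Finset.sum_add_distrib, sum_ch, hd b hb, Finset.inter_univ] at h2
  exact h2

lemma ind_eq {B : Set (Fin n → ℤ)} {d : ℤ} (hd : Deg B d) {a : Fin n → ℤ}
    {F : Finset (Fin n)} (h : Ind B a F) (hs : d + F.card = ∑ x, a x) : a - ch F ∈ B := by
  obtain ⟨b, hb, h1⟩ := h
  have h3 : ∀ x ∈ (Finset.univ : Finset (Fin n)), b x + ch F x = a x := by
    rw [← Finset.sum_eq_sum_iff_of_le fun x _ => h1 x]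
    rw [Finset.sum_add_distrib, sum_ch, hd b hb, Finset.inter_univ]
    exact hs
  have : a - ch F = b := by
    funext x
    have := h3 x (Finset.mem_univ _)
    simp only [Pi.sub_apply]
    omega
  rw [this]
  exact hb

lemma ind_of_mem {B : Set (Fin n → ℤ)} {a : Fin n → ℤ} {F : Finset (Fin n)}
    (h : a - ch F ∈ B) : Ind B a F := ⟨_, h, fun x => by simp only [Pi.sub_apply]; omega⟩

/-- if the complex has no coloop then its rank is `|a| - d` -/
lemma rank_eq {B : Set (Fin n → ℤ)} (hB : Exch B) {d : ℤ} (hd : Deg B d) {a : Fin n → ℤ} {r : ℕ}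
    (hr : ∃ F, Ind B a F ∧ F.card = r) (hmax : ∀ F, Ind B a F → F.card ≤ r)
    (hcol : ∀ f, ∃ F, f ∉ F ∧ Ind B a F ∧ F.card = r) : d + r = ∑ x, a x := by
  obtain ⟨F, hF, hFr⟩ := hr
  by_contra hne
  have hle := ind_card hd hF
  obtain ⟨u, hu, huF⟩ := hF
  -- support
  have hsupp : ∀ u ∈ B, ∀ F : Finset (Fin n), (∀ y, u y + ch F y ≤ a y) → F.card = r →
      ∀ x, x ∉ F → u x = a x := by
    intro u hu F h1 h2 x hx
    by_contra h3
    have h4 := h1 x
    rw [ch_not hx] at h4
    have h5 := hmax _ (ind_insert' hu h1 hx (by omega))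
    rw [Finset.card_insert_of_notMem hx] at h5
    omega
  obtain ⟨f, -, hf⟩ : ∃ f ∈ Finset.univ, u f + ch F f < a f := by
    refine Finset.exists_lt_of_sum_lt ?_
    rw [Finset.sum_add_distrib, sum_ch, hd u hu, Finset.inter_univ]
    omega
  have hfF : f ∈ F := by
    by_contra h
    have := hsupp u hu F huF hFr f h
    rw [ch_not h] at hf
    omega
  rw [ch_mem hfF] at hf
  obtain ⟨F', hfF', ⟨v, hv, hvF'⟩, hF'r⟩ := hcol f
  have key : ∀ N : ℕ, ∀ u ∈ B, ∀ F : Finset (Fin n), (∀ y, u y + ch F y ≤ a y) → F.card = r →
      f ∈ F → u f + 1 < a f → (F' \ F).card = N → False := by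
    intro N
    induction N using Nat.strong_induction_on with
    | _ N ih =>
      intro u hu F huF hFr hfF hf hN
      by_cases hsub : F' ⊆ F
      · have := Finset.eq_of_subset_of_card_le hsub (by omega)
        exact hfF' (this ▸ hfF)
      · obtain ⟨p, hpF', hpF⟩ := Finset.not_subset.mp hsub
        have h1 := hsupp u hu F huF hFr p hpF
        have h2 := hvF' p
        rw [ch_mem hpF'] at h2
        obtain ⟨q, hq, hm⟩ := hB u hu v hv p (by omega)
        have hqp : q ≠ p := by
          rintro rfl
          omega
        have h3 := hvF' q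
        have h4 := ch_nonneg F' q
        have hqF : q ∈ F := by
          by_contra h
          have := hsupp u hu F huF hFr q h
          omega
        have h5 := huF q
        rw [ch_mem hqF] at h5
        by_cases hc : u q + 2 ≤ a q
        · have h6 : Ind B a (insert p F) := by
            refine ⟨_, hm, fun y => ?_⟩
            have h7 := huF y
            simp only [Pi.add_apply, Pi.sub_apply]
            by_cases hyp : y = p
            · subst hyp
              rw [E_self, E_ne hqp.symm, ch_mem (Finset.mem_insert_self _ _)]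
              omega
            · have h8 : ch (insert p F) y = ch F y := by
                unfold ch
                simp [Finset.mem_insert, hyp]
              rw [h8]
              by_cases hyq : y = q
              · subst hyq
                rw [E_self, E_ne hyp, ch_mem hqF]
                omega
              · rw [E_ne hyp, E_ne hyq]
                omega
          have h7 := hmax _ h6
          rw [Finset.card_insert_of_notMem hpF] at h7
          omega
        · have hqf : f ≠ q := by
            rintro rfl
            omega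
          have hqF' : q ∉ F' := by
            intro h
            rw [ch_mem h] at h3
            omega
          have hpf : f ≠ p := fun h => hpF (h ▸ hfF)
          refine ih _ ?_ _ hm (insert p (F.erase q)) (fun y => ?_) ?_ ?_ ?_ rfl
          · rw [← hN]
            refine Finset.card_lt_card (Finset.ssubset_iff_subset_ne.mpr ⟨?_, ?_⟩)
            · intro y hy
              rw [Finset.mem_sdiff] at hy ⊢
              refine ⟨hy.1, fun h => hy.2 (Finset.mem_insert_of_mem
                (Finset.mem_erase.mpr ⟨fun h' => hqF' (h' ▸ hy.1), h⟩))⟩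
            · intro heq
              have h9 : p ∈ F' \ F := Finset.mem_sdiff.mpr ⟨hpF', hpF⟩
              rw [← heq] at h9
              exact (Finset.mem_sdiff.mp h9).2 (Finset.mem_insert_self _ _)
          · rw [ch_insert_erase hqF hpF]
            have h7 := huF y
            simp only [Pi.add_apply, Pi.sub_apply]
            omega
          · rw [Finset.card_insert_of_notMem (fun h' => hpF (Finset.mem_of_mem_erase h')),
              Finset.card_erase_of_mem hqF]
            have : 0 < F.card := Finset.card_pos.mpr ⟨q, hqF⟩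
            omega
          · exact Finset.mem_insert_of_mem (Finset.mem_erase.mpr ⟨hqf, hfF⟩)
          · simp only [Pi.add_apply, Pi.sub_apply]
            rw [E_ne hpf, E_ne hqf]
            omega
  exact key _ u hu F huF hFr hfF (by omega) rfl

end Pool.Agent.X51.HS
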