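import Pool.Agent.X51.HS.Ind

/-!
Multigraded Koszul homology of polymatroidal ideals.
-/

set_option autoImplicit false

namespace Pool.Agent.X51.HS

open Finset Pool.Agent.H677R3.EdgeReg

variable {n : ℕ} {k : Type*} [Field k]

/-- `Tor_i^S(k, J)_a ≠ 0`, as Koszul homology: there is a Koszul `i`-cycle with coefficients in `J`,
homogeneous of multidegree `a`, which is not the boundary of an `(i+1)`-chain with coefficients in
`J`. -/
def TorNe (J : Ideal (MvPolynomial (Fin n) k)) (i : ℕ) (a : Fin n →₀ ℕ) : Prop :=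
  ∃ f : Finset (Fin n) → MvPolynomial (Fin n) k,
    (∀ T, f T ∈ J) ∧ (∀ T, ∀ c ∈ (f T).support, c + ind T = a) ∧
    (∀ T, T.card ≠ i → f T = 0) ∧ (∀ T, koszulD f T = 0) ∧
    ¬ ∃ g : Finset (Fin n) → MvPolynomial (Fin n) k,
      (∀ T, g T ∈ J) ∧ (∀ T, T.card ≠ i + 1 → g T = 0) ∧ ∀ T, koszulD g T = f T

/-- the sets `T` with `x^(a - 1_T) ∈ J` -/
def Kp (P : (Fin n →₀ ℕ) → Prop) (a : Fin n →₀ ℕ) (T : Finset (Fin n)) : Prop :=
  ind T ≤ a ∧ P (a - ind T)

lemma comp_mono (a b : Fin n →₀ ℕ) (z : Finset (Fin n) → k) (hz : ∀ T, z T ≠ 0 → ind T ≤ a)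
    (T : Finset (Fin n)) :
    comp (fun T => MvPolynomial.monomial (a - ind T) (z T)) b T = if b = a then z T else 0 := by
  classical
  unfold comp
  simp only [MvPolynomial.coeff_monomial]
  by_cases h0 : z T = 0
  · simp [h0]
  · have hle := hz T h0
    by_cases h1 : b = a
    · subst h1
      simp [hle]
    · rw [if_neg h1]
      split_ifs with h2 h3
      · exfalso
        apply h1
        rw [← tsub_add_cancel_of_le hle, ← tsub_add_cancel_of_le h2, h3]
      · rfl
      · rfl

lemma tor_iff (J : Ideal (MvPolynomial (Fin n) k)) (P : (Fin n →₀ ℕ) → Prop)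
    (hJ : ∀ p, p ∈ J ↔ ∀ c ∈ p.support, P c) (i : ℕ) (a : Fin n →₀ ℕ) :
    TorNe J i a ↔ ∃ z : Finset (Fin n) → k, (∀ T, z T ≠ 0 → Kp P a T ∧ T.card = i) ∧
      (∀ T, cd z T = 0) ∧ ¬ ∃ g : Finset (Fin n) → k,
        (∀ T, g T ≠ 0 → Kp P a T ∧ T.card = i + 1) ∧ ∀ T, cd g T = z T := by
  classical
  constructor
  · rintro ⟨f, hf1, hf2, hf3, hf4, hf5⟩
    refine ⟨comp f a, fun T hT => ?_, fun T => ?_, ?_⟩
    · unfold comp at hT
      split_ifs at hT with hle
      · refine ⟨⟨hle, (hJ _).mp (hf1 T) _ (MvPolynomial.mem_support_iff.mpr hT)⟩, ?_⟩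
        by_contra h
        rw [hf3 T h] at hT
        simp at hT
      · exact absurd rfl hT
    · rw [← comp_koszulD]
      unfold comp
      rw [hf4]
      simp
    · rintro ⟨g, hg1, hg2⟩
      apply hf5
      refine ⟨fun T => MvPolynomial.monomial (a - ind T) (g T), fun T => ?_, fun T hT => ?_,
        fun T => ?_⟩
      · rw [hJ]
        intro c hc'
        rw [MvPolynomial.mem_support_iff] at hc'
        simp only [MvPolynomial.coeff_monomial] at hc'
        split_ifs at hc' with h
        · rw [← h]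
          exact (hg1 T hc').1.2
        · exact absurd rfl hc'
      · have : g T = 0 := by
          by_contra h
          exact hT (hg1 T h).2
        simp only [this, map_zero]
      · ext c
        rw [← comp_add_ind, ← comp_add_ind, comp_koszulD]
        set b := c + ind T with hb
        have h1 : comp (fun T => MvPolynomial.monomial (a - ind T) (g T)) b =
            fun T => if b = a then g T else 0 := by
          funext T'
          exact comp_mono a b g (fun T hT => (hg1 T hT).1.1) T'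
        rw [h1]
        by_cases h : b = a
        · simp only [if_pos h]
          rw [h]
          exact hg2 T
        · simp only [if_neg h]
          rw [cd_zero]
          symm
          by_contra h2
          apply h
          rw [hb] at h2
          rw [comp_add_ind] at h2
          exact hf2 T c (MvPolynomial.mem_support_iff.mpr h2)
  · rintro ⟨z, hz1, hz2, hz3⟩
    refine ⟨fun T => MvPolynomial.monomial (a - ind T) (z T), fun T => ?_, fun T c hc => ?_,
      fun T hT => ?_, fun T => ?_, ?_⟩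
    · rw [hJ]
      intro c hc'
      rw [MvPolynomial.mem_support_iff] at hc'
      simp only [MvPolynomial.coeff_monomial] at hc'
      split_ifs at hc' with h
      · rw [← h]
        exact (hz1 T hc').1.2
      · exact absurd rfl hc'
    · rw [MvPolynomial.mem_support_iff] at hc
      simp only [MvPolynomial.coeff_monomial] at hc
      split_ifs at hc with h
      · rw [← h]
        exact tsub_add_cancel_of_le (hz1 T hc).1.1
      · exact absurd rfl hc
    · have : z T = 0 := by
        by_contra h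
        exact hT (hz1 T h).2
      simp only [this, map_zero]
    · ext c
      rw [← comp_add_ind, comp_koszulD, MvPolynomial.coeff_zero]
      set b := c + ind T
      have h1 : comp (fun T => MvPolynomial.monomial (a - ind T) (z T)) b =
          fun T => if b = a then z T else 0 := by
        funext T'
        exact comp_mono a b z (fun T hT => (hz1 T hT).1.1) T'
      rw [h1]
      by_cases h : b = a
      · simp only [if_pos h]
        exact hz2 T
      · simp only [if_neg h]
        exact cd_zero T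
    · rintro ⟨g, hg1, hg2, hg3⟩
      apply hz3
      refine ⟨comp g a, fun T hT => ?_, fun T => ?_⟩
      · unfold comp at hT
        split_ifs at hT with hle
        · refine ⟨⟨hle, (hJ _).mp (hg1 T) _ (MvPolynomial.mem_support_iff.mpr hT)⟩, ?_⟩
          by_contra h
          rw [hg2 T h] at hT
          simp at hT
        · exact absurd rfl hT
      · rw [← comp_koszulD]
        have h1 : comp (koszulD g) a T =
            comp (fun T => MvPolynomial.monomial (a - ind T) (z T)) a T := by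
          unfold comp
          rw [hg3]
        rw [h1, comp_mono a a z (fun T hT => (hz1 T hT).1.1) T, if_pos rfl]

/-- exponent vectors as integer vectors -/
def toZ (u : Fin n →₀ ℕ) : Fin n → ℤ := fun x => (u x : ℤ)

lemma toZ_inj : Function.Injective (toZ (n := n)) := by
  intro u v h
  ext x
  have := congrFun h x
  simp only [toZ] at this
  exact_mod_cast this

lemma toZ_add (u v : Fin n →₀ ℕ) : toZ (u + v) = toZ u + toZ v := by
  funext x
  simp [toZ]

lemma kp_iff (B : Set (Fin n →₀ ℕ)) (a : Fin n →₀ ℕ) (T : Finset (Fin n)) :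
    Kp (fun c => ∃ u ∈ B, u ≤ c) a T ↔ Ind (toZ '' B) (toZ a) T := by
  constructor
  · rintro ⟨h1, u, hu, h2⟩
    refine ⟨_, ⟨u, hu, rfl⟩, fun x => ?_⟩
    have h3 := h1 x
    have h4 := h2 x
    rw [ind_apply] at h3
    simp only [Finsupp.coe_tsub, Pi.sub_apply, ind_apply] at h4
    simp only [toZ, ch]
    split_ifs at h3 h4 ⊢ <;> omega
  · rintro ⟨_, ⟨u, hu, rfl⟩, h⟩
    have h1 : ∀ x, u x + (if x ∈ T then 1 else 0) ≤ a x := by
      intro x
      have h2 := h x
      simp only [toZ, ch] at h2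
      split_ifs at h2 ⊢ <;> omega
    refine ⟨fun x => ?_, u, hu, fun x => ?_⟩
    · have h2 := h1 x
      rw [ind_apply]
      omega
    · have h2 := h1 x
      simp only [Finsupp.coe_tsub, Pi.sub_apply, ind_apply]
      omega

/-- non-vanishing of the multigraded Koszul homology of a polymatroidal ideal -/
theorem tor_good {B : Set (Fin n →₀ ℕ)} {J : Ideal (MvPolynomial (Fin n) k)}
    (hJ : J = Ideal.span ((fun u => MvPolynomial.monomial u (1 : k)) '' B)) {d : ℤ}
    (hB : Exch (toZ '' B)) (hd : Deg (toZ '' B) d) (i : ℕ) (a : Fin n →₀ ℕ) :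
    TorNe J i a ↔ Good (toZ '' B) i (toZ a) := by
  classical
  rw [tor_iff J (fun c => ∃ u ∈ B, u ≤ c) (fun p => by
    rw [hJ, MvPolynomial.mem_ideal_span_monomial_image]) i a]
  simp only [kp_iff]
  have hM := ind_mat hB (toZ a)
  constructor
  · rintro ⟨z, hz1, hz2, hz3⟩
    obtain ⟨T0, hT0⟩ : ∃ T, z T ≠ 0 := by
      by_contra hcon
      push Not at hcon
      exact hz3 ⟨fun _ => 0, fun T h => absurd rfl h, fun T => by rw [cd_zero, hcon]⟩
    obtain ⟨hQ0, hc0⟩ := hz1 _ hT0
    -- the rank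
    obtain ⟨F, hF, hFmax⟩ := Finset.exists_max_image
      (Finset.univ.filter fun F : Finset (Fin n) => Ind (toZ '' B) (toZ a) F) Finset.card
      ⟨T0, by simp [hQ0]⟩
    simp only [Finset.mem_filter, Finset.mem_univ, true_and] at hF hFmax
    have hi : i ≤ F.card := hc0 ▸ hFmax _ hQ0
    have hir : i = F.card := by
      by_contra hne
      obtain ⟨g, hg1, hg2⟩ := vanish _ _ hM Finset.univ (fun T _ => Finset.subset_univ T) rfl
        F.card ⟨F, hF, rfl⟩ i (by omega) z hz1 hz2
      exact hz3 ⟨g, hg1, hg2⟩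
    have hcol : ∀ f, ∃ G, f ∉ G ∧ Ind (toZ '' B) (toZ a) G ∧ G.card = i := by
      intro f
      by_contra hcon
      push Not at hcon
      have hcon' : ∀ G, Ind (toZ '' B) (toZ a) G → G.card = i → f ∈ G := by
        intro G h1 h2
        by_contra h3
        exact hcon G h3 h1 h2
      have hins : ∀ T, Ind (toZ '' B) (toZ a) T → Ind (toZ '' B) (toZ a) (insert f T) := by
        intro T hT
        obtain ⟨C, h1, h2, h3, h4⟩ := hM.ext hF T hT (hFmax _ hT)
        exact hM.mono (Finset.insert_subset (hcon' C h3 (by omega)) h1) h3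
      refine hz3 ⟨hv f z, fun T hT => ?_, cd_hv hz2 f⟩
      obtain ⟨h1, h2⟩ := supp_hv hT
      obtain ⟨h3, h4⟩ := hz1 _ h2
      refine ⟨?_, ?_⟩
      · have := hins _ h3
        rwa [Finset.insert_erase h1] at this
      · rw [← h4, Finset.card_erase_of_mem h1]
        have : 0 < T.card := Finset.card_pos.mpr ⟨f, h1⟩
        omega
    have hr := rank_eq hB hd (r := i) ⟨F, hF, hir.symm⟩ (fun G hG => hir ▸ hFmax G hG) hcol
    refine ⟨⟨F, hir.symm, ind_eq hd hF (by rw [← hir]; exact hr)⟩, fun f => ?_⟩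
    obtain ⟨G, h1, h2, h3⟩ := hcol f
    exact ⟨G, h1, h3, ind_eq hd h2 (by rw [h3]; exact hr)⟩
  · rintro ⟨⟨F, hF1, hF2⟩, hcol⟩
    obtain ⟨z, h1, h2, T0, h3⟩ := top_cycle (k := k) i _ hM ⟨F, ind_of_mem hF2, hF1⟩ (fun f => by
      obtain ⟨G, h1, h2, h3⟩ := hcol f
      exact ⟨G, h1, ind_of_mem h3, h2⟩)
    refine ⟨z, h1, h2, ?_⟩
    rintro ⟨g, hg1, hg2⟩
    have hsum : ∑ x, toZ a x = d + i := by
      have h4 := hd _ hF2
      simp only [Pi.sub_apply] at h4
      rw [Finset.sum_sub_distrib, sum_ch, Finset.inter_univ, hF1] at h4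
      omega
    have hg0 : g = fun _ => 0 := by
      funext T
      by_contra h
      obtain ⟨h4, h5⟩ := hg1 T h
      have h6 := ind_card hd h4
      rw [h5, hsum] at h6
      push_cast at h6
      omega
    apply h3
    rw [← hg2 T0, hg0]
    exact cd_zero T0

/-- sums of `m` elements -/
def SB (m : ℕ) (B : Set (Fin n →₀ ℕ)) : Set (Fin n →₀ ℕ) :=
  {x | ∃ b : Fin m → Fin n →₀ ℕ, (∀ j, b j ∈ B) ∧ x = ∑ j, b j}

lemma toZ_sum {m : ℕ} (b : Fin m → Fin n →₀ ℕ) : toZ (∑ j, b j) = ∑ j, toZ (b j) := by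
  funext x
  simp [toZ]

lemma toZ_SB (m : ℕ) (B : Set (Fin n →₀ ℕ)) : toZ '' (SB m B) = KB m (toZ '' B) := by
  ext x
  constructor
  · rintro ⟨_, ⟨b, hb, rfl⟩, rfl⟩
    exact ⟨fun j => toZ (b j), fun j => ⟨b j, hb j, rfl⟩, toZ_sum b⟩
  · rintro ⟨b, hb, rfl⟩
    choose c hc1 hc2 using hb
    refine ⟨∑ j, c j, ⟨c, hc1, rfl⟩, ?_⟩
    rw [toZ_sum]
    exact Finset.sum_congr rfl fun j _ => hc2 j

lemma span_pow (B : Set (Fin n →₀ ℕ)) (m : ℕ) :
    (Ideal.span ((fun u => MvPolynomial.monomial u (1 : k)) '' B)) ^ m =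
      Ideal.span ((fun u => MvPolynomial.monomial u (1 : k)) '' (SB m B)) := by
  induction m with
  | zero =>
    rw [pow_zero, Ideal.one_eq_top]
    symm
    rw [Ideal.eq_top_iff_one]
    refine Ideal.subset_span ⟨0, ⟨Fin.elim0, fun j => j.elim0, by simp⟩, ?_⟩
    simp
  | succ m ih =>
    rw [pow_succ, ih, Ideal.span_mul_span']
    congr 1
    ext p
    constructor
    · rintro ⟨_, ⟨x, ⟨b, hb, rfl⟩, rfl⟩, _, ⟨u, hu, rfl⟩, rfl⟩
      refine ⟨∑ j, b j + u, ⟨Fin.snoc b u, fun j => ?_, ?_⟩, ?_⟩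
      · refine Fin.lastCases ?_ (fun j => ?_) j
        · simpa using hu
        · simpa using hb j
      · rw [Fin.sum_univ_castSucc]
        simp
      · simp [MvPolynomial.monomial_mul]
    · rintro ⟨x, ⟨b, hb, rfl⟩, rfl⟩
      refine ⟨_, ⟨∑ j : Fin m, b j.castSucc, ⟨fun j => b j.castSucc, fun j => hb _, rfl⟩, rfl⟩,
        _, ⟨b (Fin.last m), hb _, rfl⟩, ?_⟩
      simp only [MvPolynomial.monomial_mul, mul_one]
      rw [Fin.sum_univ_castSucc]

lemma exch_of_nat {B : Set (Fin n →₀ ℕ)}
    (hex : ∀ u ∈ B, ∀ v ∈ B, ∀ p, v p < u p →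
      ∃ q, u q < v q ∧ u - Finsupp.single p 1 + Finsupp.single q 1 ∈ B) : Exch (toZ '' B) := by
  rintro _ ⟨a, ha, rfl⟩ _ ⟨b, hb, rfl⟩ p hp
  simp only [Pool.Agent.X51.HS.toZ] at hp
  have hp0 : b p < a p := by exact_mod_cast hp
  obtain ⟨q, hq, hm⟩ := hex a ha b hb p hp0
  refine ⟨q, ?_, _, hm, ?_⟩
  · simp only [Pool.Agent.X51.HS.toZ]
    exact_mod_cast hq
  · funext x
    simp only [Pool.Agent.X51.HS.toZ, E, Finsupp.coe_add, Finsupp.coe_tsub, Pi.add_apply,
      Pi.sub_apply, Finsupp.single_apply]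
    by_cases h1 : x = p
    · subst h1
      by_cases h2 : q = x
      · subst h2
        simp
        omega
      · rw [if_pos rfl, if_neg h2, if_pos rfl, if_neg (Ne.symm h2)]
        omega
    · rw [if_neg (Ne.symm h1), if_neg h1]
      by_cases h2 : x = q
      · subst h2
        rw [if_pos rfl, if_pos rfl]
        omega
      · rw [if_neg (Ne.symm h2), if_neg h2]
        omega

lemma deg_of_nat {B : Set (Fin n →₀ ℕ)} {d : ℕ} (hd : ∀ u ∈ B, ∑ x, u x = d) :
    Deg (toZ '' B) d := by
  rintro _ ⟨a, ha, rfl⟩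
  have := hd a ha
  simp only [Pool.Agent.X51.HS.toZ]
  exact_mod_cast this

/-- homological shift ideals -/
noncomputable def HS (i : ℕ) (J : Ideal (MvPolynomial (Fin n) k)) :
    Ideal (MvPolynomial (Fin n) k) :=
  Ideal.span ((fun a => MvPolynomial.monomial a (1 : k)) '' {a | TorNe J i a})

theorem main {B : Set (Fin n →₀ ℕ)} {I : Ideal (MvPolynomial (Fin n) k)}
    (hI : I = Ideal.span ((fun u => MvPolynomial.monomial u (1 : k)) '' B)) {d : ℤ}
    (hB : Exch (toZ '' B)) (hd : Deg (toZ '' B) d) (i m : ℕ) (him : i ≤ m) :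
    HS i (I ^ (m + 1)) = I * HS i (I ^ m) := by
  have hpow : ∀ m, I ^ m = Ideal.span ((fun u => MvPolynomial.monomial u (1 : k)) '' (SB m B)) :=
    fun m => by rw [hI, span_pow]
  have hT : ∀ m a, TorNe (I ^ m) i a ↔ Good (KB m (toZ '' B)) i (toZ a) := by
    intro m a
    rw [tor_good (hpow m) (d := m * d) (by rw [toZ_SB]; exact KB_exch hB m)
      (by rw [toZ_SB]; exact KB_deg hd m), toZ_SB]
  apply le_antisymm
  · unfold HS
    rw [Ideal.span_le]
    rintro _ ⟨a, ha, rfl⟩
    obtain ⟨_, ⟨b, hb, rfl⟩, hg⟩ := split hB hd him ((hT _ a).mp ha)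
    have hle : b ≤ a := by
      obtain ⟨⟨F, -, c, hc, hs⟩, -⟩ := hg
      intro x
      have h1 := congrFun hs x
      have h2 : 0 ≤ (∑ j, c j) x := by
        rw [Finset.sum_apply]
        refine Finset.sum_nonneg fun j _ => ?_
        obtain ⟨w, -, hw⟩ := hc j
        rw [← hw]
        simp [toZ]
      rw [← h1] at h2
      have h3 := ch_nonneg F x
      simp only [Pi.sub_apply, toZ] at h2
      omega
    have h1 : toZ (a - b) = toZ a - toZ b := by
      funext x
      have := hle x
      simp only [toZ, Finsupp.coe_tsub, Pi.sub_apply]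
      omega
    have h2 : MvPolynomial.monomial a (1 : k) =
        MvPolynomial.monomial b (1 : k) * MvPolynomial.monomial (a - b) (1 : k) := by
      rw [MvPolynomial.monomial_mul, add_tsub_cancel_of_le hle, mul_one]
    show MvPolynomial.monomial a (1 : k) ∈ _
    rw [h2]
    refine Ideal.mul_mem_mul ?_ (Ideal.subset_span ⟨a - b, (hT m _).mpr (h1 ▸ hg), rfl⟩)
    rw [hI]
    exact Ideal.subset_span ⟨b, hb, rfl⟩
  · rw [show I * HS i (I ^ m) =
      Ideal.span ((fun u => MvPolynomial.monomial u (1 : k)) '' B) * HS i (I ^ m) from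
      congrArg (fun X => X * HS i (I ^ m)) hI]
    unfold HS
    rw [Ideal.span_mul_span', Ideal.span_le]
    rintro _ ⟨_, ⟨b, hb, rfl⟩, _, ⟨a, ha, rfl⟩, rfl⟩
    refine Ideal.subset_span ⟨b + a, ?_, by simp [MvPolynomial.monomial_mul]⟩
    show TorNe _ _ _
    rw [hT, toZ_add]
    exact Good.add ((hT m a).mp ha) ⟨b, hb, rfl⟩

end Pool.Agent.X51.HS
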